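import Mathlib
import Pool.Agent.H52.SI.S2

/-!
Primes `n² + a`: the energy of the test function.
-/

set_option autoImplicit false

open Finset

namespace Pool.Agent.H52.SQ

/-- the test function with the shifts `t j` and the coefficients `σ j` -/
noncomputable def TG (R1 R : ℕ) (J : Finset ℕ) (σ : ℕ → ℝ) (t : ℕ → ℕ) (n : ℕ) : ℝ :=
  ∑ j ∈ J, σ j * wt R1 R (n + t j)

/-- the kernel -/
noncomputable def KG (J : Finset ℕ) (σ : ℕ → ℝ) (t : ℕ → ℕ) (r b : ℕ) : ℂ :=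
  ∑ j ∈ J, (σ j : ℂ) * ee ((t j : ℝ) * b / r)

lemma TG_complex (R1 R : ℕ) (J : Finset ℕ) (σ : ℕ → ℝ) (t : ℕ → ℕ) (n : ℕ) :
    ((TG R1 R J σ t n : ℝ) : ℂ) =
    ∑ r ∈ Ioc R1 R, ∑ b ∈ red r, ((mu r / r : ℝ) : ℂ) * KG J σ t r b * ee (n * b / r) := by
  unfold TG
  rw [Complex.ofReal_sum]
  have h1 : ∀ j ∈ J, ((σ j * wt R1 R (n + t j) : ℝ) : ℂ) =
      ∑ r ∈ Ioc R1 R, ∑ b ∈ red r, ((mu r / r : ℝ) : ℂ) *
        (((σ j : ℂ) * ee ((t j : ℝ) * b / r)) * ee (n * b / r)) := by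
    intro j _
    rw [Complex.ofReal_mul, wt_complex, mul_sum]
    apply sum_congr rfl
    intro r _
    rw [mul_sum, mul_sum]
    apply sum_congr rfl
    intro b _
    have h2 : ee (((n + t j : ℕ) : ℝ) * b / r) = ee ((t j : ℝ) * b / r) * ee (n * b / r) := by
      rw [← ls_ee_add]
      congr 1
      push_cast
      ring
    rw [h2]
    ring
  rw [sum_congr rfl h1, sum_comm]
  apply sum_congr rfl
  intro r _
  rw [sum_comm]
  apply sum_congr rfl
  intro b _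
  unfold KG
  rw [mul_sum, sum_mul]
  apply sum_congr rfl
  intro j _
  ring

/-- the energy of the test function -/
theorem energyG (R1 R A B : ℕ) (J : Finset ℕ) (σ : ℕ → ℝ) (t : ℕ → ℕ) (E : ℝ)
    (hE : ∑ r ∈ Ioc R1 R, ∑ b ∈ red r, (|mu r| / r * ‖KG J σ t r b‖) ^ 2 ≤ E) :
    ∑ n ∈ Ioc A B, TG R1 R J σ t n ^ 2 ≤ 6 * (B + (R : ℝ) ^ 2) * E := by
  have hE0 : 0 ≤ E := le_trans (sum_nonneg fun r _ => sum_nonneg fun b _ => by positivity) hE
  set a : ℕ → ℝ := fun n => if A < n then TG R1 R J σ t n else 0 with ha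
  set S : ℝ := ∑ n ∈ Ioc A B, TG R1 R J σ t n ^ 2 with hS
  have hS0 : 0 ≤ S := sum_nonneg fun n _ => by positivity
  have hsub : ∀ F : ℕ → ℝ, ∑ n ∈ Ioc A B, F n = ∑ n ∈ Icc 1 B, if A < n then F n else 0 := by
    intro F
    rw [← sum_filter]
    apply sum_congr _ (fun _ _ => rfl)
    ext n
    rw [mem_Ioc, mem_filter, mem_Icc]
    constructor
    · intro h1
      omega
    · intro h1
      omega
  have hS1 : S = ∑ n ∈ Icc 1 B, a n * TG R1 R J σ t n := by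
    rw [hS, hsub]
    apply sum_congr rfl
    intro n _
    simp only [ha]
    split_ifs
    · ring
    · ring
  have hS2 : S = ∑ n ∈ Icc 1 B, ‖((a n : ℝ) : ℂ)‖ ^ 2 := by
    rw [hS, hsub]
    apply sum_congr rfl
    intro n _
    rw [Complex.norm_real, Real.norm_eq_abs, sq_abs]
    simp only [ha]
    split_ifs
    · ring
    · ring
  have hls := additive_large_sieve B R (fun n => ((a n : ℝ) : ℂ))
  rw [← hS2] at hls
  have hexp : ((S : ℝ) : ℂ) = ∑ r ∈ Ioc R1 R, ∑ b ∈ red r, ((mu r / r : ℝ) : ℂ) * KG J σ t r b *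
      ∑ n ∈ Icc 1 B, ((a n : ℝ) : ℂ) * ee (n * b / r) := by
    rw [hS1, Complex.ofReal_sum]
    have h1 : ∀ n ∈ Icc 1 B, ((a n * TG R1 R J σ t n : ℝ) : ℂ) = ∑ r ∈ Ioc R1 R, ∑ b ∈ red r,
        ((mu r / r : ℝ) : ℂ) * KG J σ t r b * (((a n : ℝ) : ℂ) * ee (n * b / r)) := by
      intro n _
      rw [Complex.ofReal_mul, TG_complex, mul_sum]
      apply sum_congr rfl
      intro r _
      rw [mul_sum]
      apply sum_congr rfl
      intro b _
      ring
    rw [sum_congr rfl h1, sum_comm]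
    apply sum_congr rfl
    intro r _
    rw [sum_comm]
    apply sum_congr rfl
    intro b _
    rw [mul_sum]
  have hnorm : S ≤ ∑ r ∈ Ioc R1 R, ∑ b ∈ red r, (|mu r| / r * ‖KG J σ t r b‖) *
      ‖∑ n ∈ Icc 1 B, ((a n : ℝ) : ℂ) * ee (n * b / r)‖ := by
    have h1 : S = ‖((S : ℝ) : ℂ)‖ := by
      rw [Complex.norm_real, Real.norm_eq_abs, abs_of_nonneg hS0]
    rw [h1, hexp]
    refine (norm_sum_le _ _).trans (sum_le_sum fun r _ => ?_)
    refine (norm_sum_le _ _).trans (sum_le_sum fun b _ => ?_)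
    rw [norm_mul, norm_mul, Complex.norm_real, Real.norm_eq_abs, abs_div, Nat.abs_cast]
  have hcs := cs_double (Ioc R1 R) red (fun r b => |mu r| / r * ‖KG J σ t r b‖)
    (fun r b => ‖∑ n ∈ Icc 1 B, ((a n : ℝ) : ℂ) * ee (n * b / r)‖)
  have hB : ∑ r ∈ Ioc R1 R, ∑ b ∈ red r, ‖∑ n ∈ Icc 1 B, ((a n : ℝ) : ℂ) * ee (n * b / r)‖ ^ 2 ≤
      6 * (B + (R : ℝ) ^ 2) * S := by
    refine le_trans ?_ hls
    apply sum_le_sum_of_subset_of_nonneg
    · intro r hr
      rw [mem_Ioc] at hr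
      rw [mem_Icc]
      omega
    · intro r _ _
      positivity
  have h5 : S ^ 2 ≤ E * (6 * (B + (R : ℝ) ^ 2) * S) := by
    calc S ^ 2 ≤ (∑ r ∈ Ioc R1 R, ∑ b ∈ red r, (|mu r| / r * ‖KG J σ t r b‖) *
          ‖∑ n ∈ Icc 1 B, ((a n : ℝ) : ℂ) * ee (n * b / r)‖) ^ 2 := pow_le_pow_left₀ hS0 hnorm 2
      _ ≤ _ := hcs
      _ ≤ _ := mul_le_mul hE hB (by positivity) hE0
  rcases hS0.lt_or_eq with h6 | h6
  · have h7 : S * S ≤ (6 * (B + (R : ℝ) ^ 2) * E) * S := by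
      calc S * S = S ^ 2 := by ring
        _ ≤ _ := h5
        _ = _ := by ring
    exact le_of_mul_le_mul_right h7 h6
  · rw [← h6]
    positivity

/-- the kernel in mean square, in terms of the number of coincidences -/
lemma KG_mean (J : Finset ℕ) (σ : ℕ → ℝ) (hσ : ∀ j ∈ J, |σ j| ≤ 1) (t : ℕ → ℕ) (r : ℕ) (hr : 0 < r) :
    ∑ b ∈ red r, ‖KG J σ t r b‖ ^ 2 ≤
      r * ∑ i ∈ J, ∑ j ∈ J, if t i % r = t j % r then (1 : ℝ) else 0 := by
  have h1 : ∑ b ∈ red r, ‖KG J σ t r b‖ ^ 2 ≤ ∑ b ∈ range r, ‖KG J σ t r b‖ ^ 2 := by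
    apply sum_le_sum_of_subset_of_nonneg
    · unfold red
      exact filter_subset _ _
    · intro b _ _
      positivity
  refine h1.trans ?_
  have key : ((∑ b ∈ range r, ‖KG J σ t r b‖ ^ 2 : ℝ) : ℂ) =
      ∑ i ∈ J, ∑ j ∈ J, ((σ i * σ j : ℝ) : ℂ) * if t i % r = t j % r then (r : ℂ) else 0 := by
    rw [Complex.ofReal_sum]
    have h2 : ∀ b ∈ range r, ((‖KG J σ t r b‖ ^ 2 : ℝ) : ℂ) =
        ∑ i ∈ J, ∑ j ∈ J, ((σ i * σ j : ℝ) : ℂ) * ee (((t i : ℤ) - (t j : ℤ) : ℤ) * b / r) := by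
      intro b _
      rw [norm_sq_eq]
      unfold KG
      rw [map_sum, sum_mul_sum]
      apply sum_congr rfl
      intro i _
      apply sum_congr rfl
      intro j _
      rw [map_mul, Complex.conj_ofReal, ls_conj_ee]
      have h3 : ee ((((t i : ℤ) - (t j : ℤ) : ℤ) : ℝ) * b / r) =
          ee ((t i : ℝ) * b / r) * ee (-((t j : ℝ) * b / r)) := by
        rw [← ls_ee_add]
        congr 1
        push_cast
        ring
      rw [h3]
      push_cast
      ring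
    rw [sum_congr rfl h2, sum_comm]
    apply sum_congr rfl
    intro i _
    rw [sum_comm]
    apply sum_congr rfl
    intro j _
    rw [← mul_sum, orth r hr]
    congr 1
    have h3 : ((r : ℤ) ∣ ((t i : ℤ) - (t j : ℤ))) ↔ t i % r = t j % r := by
      rw [← Int.modEq_iff_dvd, Int.natCast_modEq_iff]
      constructor
      · intro h; exact h.symm
      · intro h; exact h.symm
    simp only [h3]
  have key2 : ∑ b ∈ range r, ‖KG J σ t r b‖ ^ 2 =
      ∑ i ∈ J, ∑ j ∈ J, (σ i * σ j) * if t i % r = t j % r then (r : ℝ) else 0 := by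
    have h2 : ((∑ i ∈ J, ∑ j ∈ J, (σ i * σ j) * (if t i % r = t j % r then (r : ℝ) else 0) : ℝ) : ℂ) =
        ∑ i ∈ J, ∑ j ∈ J, ((σ i * σ j : ℝ) : ℂ) * if t i % r = t j % r then (r : ℂ) else 0 := by
      rw [Complex.ofReal_sum]
      apply sum_congr rfl
      intro i _
      rw [Complex.ofReal_sum]
      apply sum_congr rfl
      intro j _
      rw [Complex.ofReal_mul]
      congr 1
      split_ifs
      · simp
      · simp
    rw [← h2] at key
    exact_mod_cast key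
  rw [key2, mul_sum]
  apply sum_le_sum
  intro i hi
  rw [mul_sum]
  apply sum_le_sum
  intro j hj
  have h1 : σ i * σ j ≤ 1 := by
    calc σ i * σ j ≤ |σ i * σ j| := le_abs_self _
      _ = |σ i| * |σ j| := abs_mul _ _
      _ ≤ 1 * 1 := mul_le_mul (hσ i hi) (hσ j hj) (abs_nonneg _) (by norm_num)
      _ = 1 := by norm_num
  have hr0 : (0 : ℝ) < r := by exact_mod_cast hr
  split_ifs
  · nlinarith
  · simp

/-- sums of `1 / r` over the divisors `r > R1` of a number -/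
lemma div_tail (R1 R n : ℕ) (hn : 0 < n) (hR1 : 0 < R1) (T : ℝ) (hT : (n.divisors.card : ℝ) ≤ T) :
    ∑ r ∈ Ioc R1 R, (if r ∣ n then 1 / (r : ℝ) else 0) ≤ T / R1 := by
  have hR1R : (0 : ℝ) < R1 := by exact_mod_cast hR1
  rw [← sum_filter]
  have h1 : ∀ r ∈ (Ioc R1 R).filter (fun r => r ∣ n), 1 / (r : ℝ) ≤ 1 / R1 := by
    intro r hr
    rw [mem_filter, mem_Ioc] at hr
    apply div_le_div_of_nonneg_left (by norm_num) hR1R
    exact_mod_cast hr.1.1.le
  refine (sum_le_sum h1).trans ?_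
  rw [sum_const, nsmul_eq_mul]
  have h2 : (((Ioc R1 R).filter (fun r => r ∣ n)).card : ℝ) ≤ T := by
    refine le_trans ?_ hT
    have : ((Ioc R1 R).filter (fun r => r ∣ n)).card ≤ n.divisors.card := by
      apply card_le_card
      intro r hr
      rw [mem_filter] at hr
      rw [Nat.mem_divisors]
      exact ⟨hr.2, hn.ne'⟩
    exact_mod_cast this
  calc _ ≤ T * (1 / R1) := by gcongr
    _ = T / R1 := by ring

/-- the energy for the squares -/
theorem energy_sq (R1 R A B M : ℕ) (σ : ℕ → ℝ) (hσ : ∀ j, |σ j| ≤ 1) (hR1 : 0 < R1) (T : ℝ)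
    (hT0 : 0 ≤ T) (hT : ∀ n, 0 < n → n ≤ M ^ 2 → (n.divisors.card : ℝ) ≤ T) :
    ∑ n ∈ Ioc A B, TG R1 R (Icc 1 M) σ (fun j => j ^ 2) n ^ 2 ≤
      6 * (B + (R : ℝ) ^ 2) * (M * LL R1 R + (M : ℝ) ^ 2 * (T / R1)) := by
  have hR1R : (0 : ℝ) < R1 := by exact_mod_cast hR1
  apply energyG
  have h1 : ∀ r ∈ Ioc R1 R, ∑ b ∈ red r, (|mu r| / r * ‖KG (Icc 1 M) σ (fun j => j ^ 2) r b‖) ^ 2 ≤
      ∑ i ∈ Icc 1 M, ∑ j ∈ Icc 1 M, (mu r) ^ 2 * (if i ^ 2 % r = j ^ 2 % r then 1 / (r : ℝ) else 0) := by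
    intro r hr
    rw [mem_Ioc] at hr
    have hr0 : (0 : ℝ) < r := by exact_mod_cast (by omega : 0 < r)
    have h2 : ∑ b ∈ red r, (|mu r| / r * ‖KG (Icc 1 M) σ (fun j => j ^ 2) r b‖) ^ 2 =
        ((mu r) ^ 2 / (r : ℝ) ^ 2) * ∑ b ∈ red r, ‖KG (Icc 1 M) σ (fun j => j ^ 2) r b‖ ^ 2 := by
      rw [mul_sum]
      apply sum_congr rfl
      intro b _
      rw [mul_pow, div_pow, sq_abs]
    rw [h2]
    have h3 := KG_mean (Icc 1 M) σ (fun j _ => hσ j) (fun j => j ^ 2) r (by omega)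
    refine (mul_le_mul_of_nonneg_left h3 (by positivity)).trans (le_of_eq ?_)
    rw [mul_sum, mul_sum]
    apply sum_congr rfl
    intro i _
    rw [mul_sum, mul_sum]
    apply sum_congr rfl
    intro j _
    split_ifs
    · field_simp
    · simp
  refine (sum_le_sum h1).trans ?_
  rw [sum_comm]
  have h2 : ∀ i ∈ Icc 1 M, ∑ r ∈ Ioc R1 R, ∑ j ∈ Icc 1 M, (mu r) ^ 2 *
      (if i ^ 2 % r = j ^ 2 % r then 1 / (r : ℝ) else 0) ≤ LL R1 R + M * (T / R1) := by
    intro i hi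
    have hi' := mem_Icc.1 hi
    rw [sum_comm, ← add_sum_erase _ _ hi]
    apply add_le_add
    · unfold LL
      apply le_of_eq
      apply sum_congr rfl
      intro r _
      rw [if_pos rfl]
      ring
    · have h3 : ∀ j ∈ (Icc 1 M).erase i, ∑ r ∈ Ioc R1 R, (mu r) ^ 2 *
          (if i ^ 2 % r = j ^ 2 % r then 1 / (r : ℝ) else 0) ≤ T / R1 := by
        intro j hj
        rw [mem_erase, mem_Icc] at hj
        obtain ⟨hji, hj1, hj2⟩ := hj
        obtain ⟨n, hn0, hnM, hn⟩ : ∃ n : ℕ, 0 < n ∧ n ≤ M ^ 2 ∧ ∀ r, i ^ 2 % r = j ^ 2 % r → r ∣ n := by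
          rcases lt_or_gt_of_ne hji with h | h
          · have e1 : j ^ 2 < i ^ 2 := Nat.pow_lt_pow_left h (by norm_num)
            have e2 : i ^ 2 ≤ M ^ 2 := Nat.pow_le_pow_left hi'.2 2
            refine ⟨i ^ 2 - j ^ 2, by omega, by omega, fun r hr => ?_⟩
            exact (Nat.modEq_iff_dvd' e1.le).1 hr.symm
          · have e1 : i ^ 2 < j ^ 2 := Nat.pow_lt_pow_left h (by norm_num)
            have e2 : j ^ 2 ≤ M ^ 2 := Nat.pow_le_pow_left hj2 2
            refine ⟨j ^ 2 - i ^ 2, by omega, by omega, fun r hr => ?_⟩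
            exact (Nat.modEq_iff_dvd' e1.le).1 hr
        refine le_trans (sum_le_sum fun r _ => ?_) (div_tail R1 R n hn0 hR1 T (hT n hn0 hnM))
        have e3 : (mu r) ^ 2 ≤ 1 := by
          have := abs_mu_le r
          rw [← sq_abs]
          exact pow_le_one₀ (abs_nonneg _) this
        by_cases hc : i ^ 2 % r = j ^ 2 % r
        · rw [if_pos hc, if_pos (hn r hc)]
          exact mul_le_of_le_one_left (by positivity) e3
        · rw [if_neg hc, mul_zero]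
          split_ifs <;> positivity
      refine (sum_le_sum h3).trans ?_
      rw [sum_const, nsmul_eq_mul, card_erase_of_mem hi, Nat.card_Icc]
      apply mul_le_mul_of_nonneg_right _ (by positivity)
      exact_mod_cast (by omega : M + 1 - 1 - 1 ≤ M)
  refine (sum_le_sum h2).trans (le_of_eq ?_)
  rw [sum_const, nsmul_eq_mul, Nat.card_Icc, Nat.add_sub_cancel]
  ring

end Pool.Agent.H52.SQ
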