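import Mathlib
import Pool.Agent.H52.SQ.Q1

/-!
Primes `n² + a`: the correlation with the test function.
-/

set_option autoImplicit false

open Finset

namespace Pool.Agent.H52.SQ

/-- the primes in `(a, b]` -/
def IP (a b : ℕ) : Finset ℕ := (Pr b).filter (fun p => a < p)

lemma mem_IP (a b p : ℕ) : p ∈ IP a b ↔ p.Prime ∧ a < p ∧ p ≤ b := by
  unfold IP Pr
  rw [mem_filter, mem_filter, mem_Icc]
  constructor
  · rintro ⟨⟨⟨h1, h2⟩, h3⟩, h4⟩
    exact ⟨h3, h4, h2⟩
  · rintro ⟨h3, h4, h2⟩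
    exact ⟨⟨⟨h3.one_lt.le, h2⟩, h3⟩, h4⟩

/-- one progression of shifts -/
lemma offE (N R1 R K a b F0 u : ℕ) (s : ℤ) (hs : s = 1 ∨ s = -1) (T M2 : ℝ) (H : Hyp N R1 R 1 F0 T M2)
    (hu : 0 < u) (hu2 : 2 * u ≤ R) (nn : ℕ → ℕ → ℕ)
    (hnn : ∀ p ∈ IP a b, ∀ m ≤ u * K, (nn p m : ℤ) = p - s * m) (hRa : R ≤ a) (hbN : b ≤ N) :
    |∑ p ∈ IP a b, ∑ v ∈ (Icc 1 K).filter (fun v => v % 2 = u % 2), wt R1 R (nn p (v * u))| ≤
      2 * Om N R1 R K F0 T M2 := by
  have hT0 : 0 ≤ T := by linarith [H.hT1]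
  have hOm := Om_nonneg N R1 R K F0 T M2 hT0 H.hM20
  -- the even part
  have hev : |∑ p ∈ IP a b, ∑ v ∈ (Icc 1 K).filter (fun v => v % 2 = 0), wt R1 R (nn p (v * u))| ≤
      Om N R1 R K F0 T M2 := by
    have h1 : ∀ p ∈ IP a b, ∑ v ∈ (Icc 1 K).filter (fun v => v % 2 = 0), wt R1 R (nn p (v * u)) =
        ∑ k ∈ Icc 1 (K / 2), wt R1 R (nn p (k * (2 * u))) := by
      intro p _
      symm
      apply sum_bij (fun k _ => 2 * k)
      · intro k hk
        rw [mem_Icc] at hk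
        rw [mem_filter, mem_Icc]
        omega
      · intro k _ l _ hkl
        omega
      · intro v hv
        rw [mem_filter, mem_Icc] at hv
        refine ⟨v / 2, ?_, ?_⟩
        · rw [mem_Icc]
          omega
        · omega
      · intro k _
        congr 2
        ring
    rw [sum_congr rfl h1]
    have a1 := offT N R1 R (2 * u) (K / 2) a b F0 s hs (fun p k => nn p (k * (2 * u)))
      (by
        intro p hp k hk
        rw [mem_Icc] at hk
        have h2 : k * (2 * u) ≤ u * K := by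
          have h3 : 2 * k ≤ K := by omega
          calc k * (2 * u) = u * (2 * k) := by ring
            _ ≤ u * K := Nat.mul_le_mul_left u h3
        have := hnn p hp (k * (2 * u)) h2
        rw [this]
        push_cast
        ring) hRa hbN H.hF0 H.hF0R (by omega) T H.hT1 H.hT (H.hT (2 * u) (by omega) hu2) M2 H.hM2
    have b1 := Om_mono N R1 R (K / 2) K F0 T M2 hT0 (Nat.div_le_self _ _)
    exact a1.trans b1
  rcases Nat.even_or_odd u with he | ho
  · have h2 : u % 2 = 0 := Nat.even_iff.1 he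
    rw [h2]
    linarith
  · have h2 : u % 2 = 1 := Nat.odd_iff.1 ho
    have hall : |∑ p ∈ IP a b, ∑ v ∈ Icc 1 K, wt R1 R (nn p (v * u))| ≤ Om N R1 R K F0 T M2 := by
      exact offT N R1 R u K a b F0 s hs (fun p k => nn p (k * u))
        (by
          intro p hp k hk
          rw [mem_Icc] at hk
          have h2 : k * u ≤ u * K := by
            calc k * u = u * k := by ring
              _ ≤ u * K := Nat.mul_le_mul_left u hk.2
          have := hnn p hp (k * u) h2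
          rw [this]
          push_cast
          ring) hRa hbN H.hF0 H.hF0R hu T H.hT1 H.hT (H.hT u hu (by omega)) M2 H.hM2
    have h3 : ∑ p ∈ IP a b, ∑ v ∈ (Icc 1 K).filter (fun v => v % 2 = u % 2), wt R1 R (nn p (v * u)) =
        ∑ p ∈ IP a b, ∑ v ∈ Icc 1 K, wt R1 R (nn p (v * u)) -
        ∑ p ∈ IP a b, ∑ v ∈ (Icc 1 K).filter (fun v => v % 2 = 0), wt R1 R (nn p (v * u)) := by
      rw [← sum_sub_distrib]
      apply sum_congr rfl
      intro p _
      rw [← sum_filter_add_sum_filter_not (Icc 1 K) (fun v => v % 2 = 0)]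
      have h4 : (Icc 1 K).filter (fun v => ¬ v % 2 = 0) = (Icc 1 K).filter (fun v => v % 2 = u % 2) := by
        apply filter_congr
        intro v _
        omega
      rw [h4]
      ring
    rw [h3]
    calc _ ≤ _ := abs_sub _ _
      _ ≤ Om N R1 R K F0 T M2 + Om N R1 R K F0 T M2 := add_le_add hall hev
      _ = _ := by ring

lemma par_sum (u : ℕ) (G : ℕ → ℝ) (c : ℕ) : ∑ i ∈ Icc 1 c, G (2 * i + u) =
    ∑ v ∈ (Icc 1 (2 * c + u)).filter (fun v => v % 2 = u % 2), G v -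
    ∑ v ∈ (Icc 1 u).filter (fun v => v % 2 = u % 2), G v := by
  induction c with
  | zero => simp
  | succ c ih =>
    rw [sum_Icc_succ_top (by omega), ih]
    have h1 : ∑ v ∈ (Icc 1 (2 * (c + 1) + u)).filter (fun v => v % 2 = u % 2), G v =
        ∑ v ∈ (Icc 1 (2 * c + u)).filter (fun v => v % 2 = u % 2), G v + G (2 * (c + 1) + u) := by
      rw [sum_filter, sum_filter]
      have h2 : 2 * (c + 1) + u = (2 * c + u + 1) + 1 := by ring
      rw [h2, sum_Icc_succ_top (by omega), sum_Icc_succ_top (by omega)]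
      rw [if_neg (by omega), if_pos (by omega)]
      ring
    rw [h1]
    ring

/-- an interval of the variable `i`, the shifts being `(i + u)² - i²` -/
lemma offI (N R1 R K a b F0 u c : ℕ) (s : ℤ) (hs : s = 1 ∨ s = -1) (T M2 : ℝ) (H : Hyp N R1 R 1 F0 T M2)
    (hu : 0 < u) (hu2 : 2 * u ≤ R) (nn : ℕ → ℕ → ℕ)
    (hnn : ∀ p ∈ IP a b, ∀ m ≤ u * K, (nn p m : ℤ) = p - s * m) (hRa : R ≤ a) (hbN : b ≤ N)
    (hc : 2 * c + u ≤ K) :
    |∑ p ∈ IP a b, ∑ i ∈ Icc 1 c, wt R1 R (nn p ((2 * i + u) * u))| ≤ 4 * Om N R1 R K F0 T M2 := by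
  have hT0 : 0 ≤ T := by linarith [H.hT1]
  have h1 : ∑ p ∈ IP a b, ∑ i ∈ Icc 1 c, wt R1 R (nn p ((2 * i + u) * u)) =
      ∑ p ∈ IP a b, ∑ v ∈ (Icc 1 (2 * c + u)).filter (fun v => v % 2 = u % 2), wt R1 R (nn p (v * u)) -
      ∑ p ∈ IP a b, ∑ v ∈ (Icc 1 u).filter (fun v => v % 2 = u % 2), wt R1 R (nn p (v * u)) := by
    rw [← sum_sub_distrib]
    apply sum_congr rfl
    intro p _
    exact par_sum u (fun v => wt R1 R (nn p (v * u))) c
  have a1 := offE N R1 R (2 * c + u) a b F0 u s hs T M2 H hu hu2 nn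
    (fun p hp m hm => hnn p hp m (hm.trans (Nat.mul_le_mul_left u hc))) hRa hbN
  have a2 := offE N R1 R u a b F0 u s hs T M2 H hu hu2 nn
    (fun p hp m hm => hnn p hp m (hm.trans (Nat.mul_le_mul_left u (by omega)))) hRa hbN
  have b1 := Om_mono N R1 R (2 * c + u) K F0 T M2 hT0 hc
  have b2 := Om_mono N R1 R u K F0 T M2 hT0 (by omega)
  rw [h1]
  calc _ ≤ _ := abs_sub _ _
    _ ≤ 2 * Om N R1 R K F0 T M2 + 2 * Om N R1 R K F0 T M2 := by linarith
    _ = _ := by ring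

/-- the signs -/
def sg (h i : ℕ) : ℝ := if i ≤ h then -1 else 1

lemma sg_abs (h i : ℕ) : |sg h i| ≤ 1 := by
  unfold sg
  split_ifs <;> simp

lemma sg_sq (h i : ℕ) : sg h i * sg h i = 1 := by
  unfold sg
  split_ifs <;> norm_num

lemma sg_sum (h u : ℕ) (hu : 0 < u) (hu2 : u ≤ 2 * h) (G : ℕ → ℝ) :
    ∑ i ∈ Icc 1 (2 * h - u), sg h i * sg h (i + u) * G i =
      ∑ i ∈ Icc 1 (2 * h - u), G i -
      2 * (∑ i ∈ Icc 1 (min h (2 * h - u)), G i - ∑ i ∈ Icc 1 (h - u), G i) := by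
  have h1 : ∑ i ∈ Icc 1 (min h (2 * h - u)), G i - ∑ i ∈ Icc 1 (h - u), G i =
      ∑ i ∈ Icc 1 (2 * h - u), if i ≤ h ∧ h < i + u then G i else 0 := by
    rw [sub_eq_iff_eq_add, ← sum_filter, add_comm, ← sum_union]
    · apply sum_congr _ (fun _ _ => rfl)
      ext i
      simp only [mem_union, mem_filter, mem_Icc, le_min_iff]
      omega
    · rw [disjoint_left]
      intro i hi hi2
      rw [mem_Icc] at hi
      rw [mem_filter] at hi2
      omega
  rw [h1, mul_sum, ← sum_sub_distrib]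
  apply sum_congr rfl
  intro i _
  unfold sg
  split_ifs <;> first | (exfalso; omega) | ring

/-- the pairs with a given difference, with the signs -/
lemma offS (N R1 R a b F0 u h : ℕ) (s : ℤ) (hs : s = 1 ∨ s = -1) (T M2 : ℝ) (H : Hyp N R1 R 1 F0 T M2)
    (hu : 0 < u) (huh : u ≤ 2 * h) (hu2 : 2 * u ≤ R) (nn : ℕ → ℕ → ℕ)
    (hnn : ∀ p ∈ IP a b, ∀ m ≤ u * (4 * h), (nn p m : ℤ) = p - s * m) (hRa : R ≤ a) (hbN : b ≤ N) :
    |∑ p ∈ IP a b, ∑ i ∈ Icc 1 (2 * h - u), sg h i * sg h (i + u) * wt R1 R (nn p ((2 * i + u) * u))| ≤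
      20 * Om N R1 R (4 * h) F0 T M2 := by
  have h1 : ∑ p ∈ IP a b, ∑ i ∈ Icc 1 (2 * h - u), sg h i * sg h (i + u) * wt R1 R (nn p ((2 * i + u) * u)) =
      ∑ p ∈ IP a b, ∑ i ∈ Icc 1 (2 * h - u), wt R1 R (nn p ((2 * i + u) * u)) -
      2 * (∑ p ∈ IP a b, ∑ i ∈ Icc 1 (min h (2 * h - u)), wt R1 R (nn p ((2 * i + u) * u)) -
        ∑ p ∈ IP a b, ∑ i ∈ Icc 1 (h - u), wt R1 R (nn p ((2 * i + u) * u))) := by
    rw [← sum_sub_distrib, mul_sum, ← sum_sub_distrib]
    apply sum_congr rfl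
    intro p _
    exact sg_sum h u hu huh (fun i => wt R1 R (nn p ((2 * i + u) * u)))
  have a1 := offI N R1 R (4 * h) a b F0 u (2 * h - u) s hs T M2 H hu hu2 nn hnn hRa hbN (by omega)
  have a2 := offI N R1 R (4 * h) a b F0 u (min h (2 * h - u)) s hs T M2 H hu hu2 nn hnn hRa hbN (by
    have := min_le_right h (2 * h - u)
    omega)
  have a3 := offI N R1 R (4 * h) a b F0 u (h - u) s hs T M2 H hu hu2 nn hnn hRa hbN (by omega)
  rw [h1]
  have a1' := abs_le.1 a1
  have a2' := abs_le.1 a2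
  have a3' := abs_le.1 a3
  rw [abs_le]
  constructor <;> linarith

/-- pairs by their difference -/
lemma pairs (f : ℕ → ℕ → ℝ) (M : ℕ) : ∑ i ∈ Icc 1 M, ∑ j ∈ Icc 1 M, f i j =
    ∑ i ∈ Icc 1 M, f i i + ∑ u ∈ Icc 1 M, ∑ i ∈ Icc 1 (M - u), (f i (i + u) + f (i + u) i) := by
  induction M with
  | zero => simp
  | succ M ih =>
    have h1 : ∑ i ∈ Icc 1 (M + 1), ∑ j ∈ Icc 1 (M + 1), f i j =
        ∑ i ∈ Icc 1 M, ∑ j ∈ Icc 1 M, f i j + ∑ i ∈ Icc 1 M, (f i (M + 1) + f (M + 1) i) +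
          f (M + 1) (M + 1) := by
      rw [sum_Icc_succ_top (by omega), sum_Icc_succ_top (by omega), sum_add_distrib]
      have h2 : ∀ i ∈ Icc 1 M, ∑ j ∈ Icc 1 (M + 1), f i j = ∑ j ∈ Icc 1 M, f i j + f i (M + 1) := by
        intro i _
        rw [sum_Icc_succ_top (by omega)]
      rw [sum_congr rfl h2, sum_add_distrib]
      ring
    have h3 : ∑ u ∈ Icc 1 (M + 1), ∑ i ∈ Icc 1 (M + 1 - u), (f i (i + u) + f (i + u) i) =
        ∑ u ∈ Icc 1 M, ∑ i ∈ Icc 1 (M - u), (f i (i + u) + f (i + u) i) +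
        ∑ i ∈ Icc 1 M, (f i (M + 1) + f (M + 1) i) := by
      rw [sum_Icc_succ_top (by omega), Nat.sub_self]
      have h4 : ∀ u ∈ Icc 1 M, ∑ i ∈ Icc 1 (M + 1 - u), (f i (i + u) + f (i + u) i) =
          ∑ i ∈ Icc 1 (M - u), (f i (i + u) + f (i + u) i) +
            (f (M + 1 - u) (M + 1) + f (M + 1) (M + 1 - u)) := by
        intro u hu
        rw [mem_Icc] at hu
        have h5 : M + 1 - u = (M - u) + 1 := by omega
        rw [h5, sum_Icc_succ_top (by omega)]
        have h6 : M - u + 1 + u = M + 1 := by omega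
        rw [h6]
      rw [sum_congr rfl h4, sum_add_distrib]
      have h5 : ∑ u ∈ Icc 1 M, (f (M + 1 - u) (M + 1) + f (M + 1) (M + 1 - u)) =
          ∑ i ∈ Icc 1 M, (f i (M + 1) + f (M + 1) i) := by
        apply sum_bij (fun u _ => M + 1 - u)
        · intro u hu
          rw [mem_Icc] at hu ⊢
          omega
        · intro u hu v hv huv
          rw [mem_Icc] at hu hv
          omega
        · intro i hi
          rw [mem_Icc] at hi
          refine ⟨M + 1 - i, ?_, ?_⟩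
          · rw [mem_Icc]
            omega
          · omega
        · intro u _
          rfl
      rw [h5]
      simp
    rw [h1, h3, ih, sum_Icc_succ_top (by omega)]
    ring

/-- the correlation over the primes of one interval -/
theorem corr (N R1 R a b F0 h : ℕ) (T M2 : ℝ) (H : Hyp N R1 R 1 F0 T M2) (hh : 4 * h ≤ R)
    (hRa : R ≤ a) (hbN : b ≤ N) (ha : 8 * h ^ 2 ≤ a) :
    |∑ i ∈ Icc 1 (2 * h), ∑ j ∈ Icc 1 (2 * h), sg h i * sg h j *
        ∑ p ∈ IP a b, wt R1 R (p + j ^ 2 - i ^ 2) - 2 * h * (LL R1 R * (IP a b).card)| ≤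
      80 * h * Om N R1 R (4 * h) F0 T M2 := by
  have hT0 : 0 ≤ T := by linarith [H.hT1]
  have hOm := Om_nonneg N R1 R (4 * h) F0 T M2 hT0 H.hM20
  rw [pairs (fun i j => sg h i * sg h j * ∑ p ∈ IP a b, wt R1 R (p + j ^ 2 - i ^ 2)) (2 * h)]
  have h1 : ∑ i ∈ Icc 1 (2 * h), sg h i * sg h i * ∑ p ∈ IP a b, wt R1 R (p + i ^ 2 - i ^ 2) =
      2 * h * (LL R1 R * (IP a b).card) := by
    have h2 : ∀ i ∈ Icc 1 (2 * h), sg h i * sg h i * ∑ p ∈ IP a b, wt R1 R (p + i ^ 2 - i ^ 2) =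
        LL R1 R * (IP a b).card := by
      intro i _
      rw [sg_sq, one_mul]
      have h3 : ∀ p ∈ IP a b, wt R1 R (p + i ^ 2 - i ^ 2) = LL R1 R := by
        intro p hp
        rw [mem_IP] at hp
        rw [Nat.add_sub_cancel]
        exact wt_prime R1 R p hp.1 (by omega)
      rw [sum_congr rfl h3, sum_const, nsmul_eq_mul, mul_comm]
    rw [sum_congr rfl h2, sum_const, nsmul_eq_mul, Nat.card_Icc, Nat.add_sub_cancel]
    push_cast
    ring
  rw [h1, add_sub_cancel_left]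
  refine (abs_sum_le_sum_abs _ _).trans ?_
  have h2 : ∀ u ∈ Icc 1 (2 * h), |∑ i ∈ Icc 1 (2 * h - u),
      (sg h i * sg h (i + u) * ∑ p ∈ IP a b, wt R1 R (p + (i + u) ^ 2 - i ^ 2) +
        sg h (i + u) * sg h i * ∑ p ∈ IP a b, wt R1 R (p + i ^ 2 - (i + u) ^ 2))| ≤
      40 * Om N R1 R (4 * h) F0 T M2 := by
    intro u hu
    rw [mem_Icc] at hu
    have e1 : ∑ i ∈ Icc 1 (2 * h - u), sg h i * sg h (i + u) *
        ∑ p ∈ IP a b, wt R1 R (p + (i + u) ^ 2 - i ^ 2) =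
        ∑ p ∈ IP a b, ∑ i ∈ Icc 1 (2 * h - u), sg h i * sg h (i + u) *
          wt R1 R ((fun p m => p + m) p ((2 * i + u) * u)) := by
      rw [sum_comm]
      apply sum_congr rfl
      intro i _
      rw [mul_sum]
      apply sum_congr rfl
      intro p _
      congr 2
      have : (i + u) ^ 2 = i ^ 2 + (2 * i + u) * u := by ring
      rw [this]
      show p + (i ^ 2 + (2 * i + u) * u) - i ^ 2 = p + (2 * i + u) * u
      omega
    have e2 : ∑ i ∈ Icc 1 (2 * h - u), sg h (i + u) * sg h i *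
        ∑ p ∈ IP a b, wt R1 R (p + i ^ 2 - (i + u) ^ 2) =
        ∑ p ∈ IP a b, ∑ i ∈ Icc 1 (2 * h - u), sg h i * sg h (i + u) *
          wt R1 R ((fun p m => p - m) p ((2 * i + u) * u)) := by
      rw [sum_comm]
      apply sum_congr rfl
      intro i _
      rw [mul_sum]
      apply sum_congr rfl
      intro p _
      have : (i + u) ^ 2 = i ^ 2 + (2 * i + u) * u := by ring
      rw [this]
      have h3 : p + i ^ 2 - (i ^ 2 + (2 * i + u) * u) = p - (2 * i + u) * u := by omega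
      rw [h3]
      ring
    have a1 := offS N R1 R a b F0 u h (-1) (Or.inr rfl) T M2 H (by omega) (by omega) (by omega)
      (fun p m => p + m) (by
        intro p _ m _
        push_cast
        ring) hRa hbN
    have a2 := offS N R1 R a b F0 u h 1 (Or.inl rfl) T M2 H (by omega) (by omega) (by omega)
      (fun p m => p - m) (by
        intro p hp m hm
        rw [mem_IP] at hp
        have h4 : u * (4 * h) ≤ 8 * h ^ 2 := by
          calc u * (4 * h) ≤ (2 * h) * (4 * h) := Nat.mul_le_mul_right _ hu.2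
            _ = 8 * h ^ 2 := by ring
        have h5 : m ≤ p := by omega
        push_cast [Nat.cast_sub h5]
        ring) hRa hbN
    rw [sum_add_distrib, e1, e2]
    calc _ ≤ _ := abs_add_le _ _
      _ ≤ 20 * Om N R1 R (4 * h) F0 T M2 + 20 * Om N R1 R (4 * h) F0 T M2 := add_le_add a1 a2
      _ = _ := by ring
  refine (sum_le_sum h2).trans (le_of_eq ?_)
  rw [sum_const, nsmul_eq_mul, Nat.card_Icc, Nat.add_sub_cancel]
  push_cast
  ring

end Pool.Agent.H52.SQ
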