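import Mathlib
import Pool.Agent.H52.SQ.Q2
import Pool.Agent.H52.SI.S2

/-!
Primes `n² + a`: the mean square of `P_a(2h) - 2 P_a(h)`.
-/

set_option autoImplicit false

open Finset

namespace Pool.Agent.H52.SQ

/-- `P_a(2h) - 2 P_a(h)` -/
noncomputable def fpS (h a : ℕ) : ℝ := ∑ i ∈ Icc 1 (2 * h), sg h i * (if (a + i ^ 2).Prime then (1 : ℝ) else 0)

lemma IP_eq (a b : ℕ) : (Pr b).filter (fun p => a < p) = IP a b := rfl

/-- changing the interval -/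
lemma IP_shift (A B k : ℕ) (F : ℕ → ℝ) (W : ℝ) (hAB : A ≤ B) (hF : ∀ p, A < p → p ≤ B + k → |F p| ≤ W) :
    |∑ p ∈ IP (A + k) (B + k), F p - ∑ p ∈ IP A B, F p| ≤ 2 * k * W := by
  have h1 : ∑ p ∈ IP A (B + k), F p = ∑ p ∈ IP (A + k) (B + k), F p + ∑ p ∈ IP A (A + k), F p := by
    rw [← sum_union]
    · apply sum_congr _ (fun _ _ => rfl)
      ext p
      rw [mem_union, mem_IP, mem_IP, mem_IP]
      constructor
      · rintro ⟨h1, h2, h3⟩
        rcases le_or_gt p (A + k) with h4 | h4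
        · exact Or.inr ⟨h1, h2, h4⟩
        · exact Or.inl ⟨h1, h4, h3⟩
      · rintro (⟨h1, h2, h3⟩ | ⟨h1, h2, h3⟩)
        · exact ⟨h1, by omega, h3⟩
        · exact ⟨h1, h2, by omega⟩
    · rw [disjoint_left]
      intro p hp hp2
      rw [mem_IP] at hp hp2
      omega
  have h2 : ∑ p ∈ IP A (B + k), F p = ∑ p ∈ IP A B, F p + ∑ p ∈ IP B (B + k), F p := by
    rw [← sum_union]
    · apply sum_congr _ (fun _ _ => rfl)
      ext p
      rw [mem_union, mem_IP, mem_IP, mem_IP]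
      constructor
      · rintro ⟨h1, h2, h3⟩
        rcases le_or_gt p B with h4 | h4
        · exact Or.inl ⟨h1, h2, h4⟩
        · exact Or.inr ⟨h1, h4, h3⟩
      · rintro (⟨h1, h2, h3⟩ | ⟨h1, h2, h3⟩)
        · exact ⟨h1, h2, by omega⟩
        · exact ⟨h1, by omega, h3⟩
    · rw [disjoint_left]
      intro p hp hp2
      rw [mem_IP] at hp hp2
      omega
  have hcard : ∀ c, c = A ∨ c = B → |∑ p ∈ IP c (c + k), F p| ≤ k * W := by
    intro c hc
    refine (abs_sum_le_sum_abs _ _).trans ?_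
    rcases Nat.eq_zero_or_pos k with hk | hk
    · subst hk
      have h3 : IP c (c + 0) = ∅ := by
        ext p
        rw [mem_IP]
        simp only [notMem_empty, iff_false]
        omega
      rw [h3]
      simp
    have hW : 0 ≤ W := (abs_nonneg _).trans (hF (B + k) (by omega) le_rfl)
    have h3 : ∀ p ∈ IP c (c + k), |F p| ≤ W := by
      intro p hp
      rw [mem_IP] at hp
      apply hF p
      · rcases hc with hc | hc <;> omega
      · rcases hc with hc | hc <;> omega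
    refine (sum_le_card_nsmul _ _ _ h3).trans ?_
    rw [nsmul_eq_mul]
    apply mul_le_mul_of_nonneg_right _ hW
    have h4 : IP c (c + k) ⊆ Ioc c (c + k) := by
      intro p hp
      rw [mem_IP] at hp
      rw [mem_Ioc]
      exact ⟨hp.2.1, hp.2.2⟩
    have h5 := card_le_card h4
    rw [Nat.card_Ioc, Nat.add_sub_cancel_left] at h5
    exact_mod_cast h5
  have h3 : ∑ p ∈ IP (A + k) (B + k), F p - ∑ p ∈ IP A B, F p =
      ∑ p ∈ IP B (B + k), F p - ∑ p ∈ IP A (A + k), F p := by linarith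
  rw [h3]
  calc _ ≤ _ := abs_sub _ _
    _ ≤ k * W + k * W := add_le_add (hcard B (Or.inr rfl)) (hcard A (Or.inl rfl))
    _ = _ := by ring

/-- the cross term as a sum over pairs -/
lemma cross_expand (R1 R h A B : ℕ) :
    ∑ n ∈ Ioc A B, fpS h n * TG R1 R (Icc 1 (2 * h)) (sg h) (fun j => j ^ 2) n =
      ∑ i ∈ Icc 1 (2 * h), ∑ j ∈ Icc 1 (2 * h), sg h i * sg h j *
        ∑ p ∈ IP (A + i ^ 2) (B + i ^ 2), wt R1 R (p + j ^ 2 - i ^ 2) := by
  have h1 : ∀ i ∈ Icc 1 (2 * h), ∑ j ∈ Icc 1 (2 * h), sg h i * sg h j *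
        ∑ p ∈ IP (A + i ^ 2) (B + i ^ 2), wt R1 R (p + j ^ 2 - i ^ 2) =
      ∑ n ∈ Ioc A B, (sg h i * (if (n + i ^ 2).Prime then (1 : ℝ) else 0)) *
        TG R1 R (Icc 1 (2 * h)) (sg h) (fun j => j ^ 2) n := by
    intro i _
    have h2 : ∀ j ∈ Icc 1 (2 * h), sg h i * sg h j *
        ∑ p ∈ IP (A + i ^ 2) (B + i ^ 2), wt R1 R (p + j ^ 2 - i ^ 2) =
        ∑ n ∈ Ioc A B, (sg h i * (if (n + i ^ 2).Prime then (1 : ℝ) else 0)) *
          (sg h j * wt R1 R (n + j ^ 2)) := by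
      intro j _
      rw [← IP_eq, ← SI.shift_primes A B (i ^ 2) (fun p => wt R1 R (p + j ^ 2 - i ^ 2)), mul_sum]
      apply sum_congr rfl
      intro n _
      have h3 : n + i ^ 2 + j ^ 2 - i ^ 2 = n + j ^ 2 := by omega
      rw [h3]
      split_ifs
      · ring
      · ring
    rw [sum_congr rfl h2, sum_comm]
    apply sum_congr rfl
    intro n _
    unfold TG
    rw [mul_sum]
  rw [sum_congr rfl h1, sum_comm]
  apply sum_congr rfl
  intro n _
  unfold fpS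
  rw [sum_mul]

theorem cross (N R1 R h F0 A B : ℕ) (T M2 : ℝ) (H : Hyp N R1 R 1 F0 T M2) (hh : 4 * h ≤ R)
    (hRA : R ≤ A) (hAB : A ≤ B) (hBN : B ≤ N) (hA : 8 * h ^ 2 ≤ A) (hN : B + 8 * h ^ 2 ≤ 2 * N)
    (hT : ∀ n : ℕ, 0 < n → n ≤ 2 * N → (n.divisors.card : ℝ) ≤ T) :
    |∑ n ∈ Ioc A B, fpS h n * TG R1 R (Icc 1 (2 * h)) (sg h) (fun j => j ^ 2) n -
        2 * h * (LL R1 R * (IP A B).card)| ≤
      80 * h * Om N R1 R (4 * h) F0 T M2 + 32 * (h : ℝ) ^ 4 * (T * (1 + Real.log R)) := by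
  have hT0 : 0 ≤ T := by linarith [H.hT1]
  have hL := logR_nonneg R
  have h1 := corr N R1 R A B F0 h T M2 H hh hRA hBN hA
  rw [cross_expand]
  have h2 : |∑ i ∈ Icc 1 (2 * h), ∑ j ∈ Icc 1 (2 * h), sg h i * sg h j *
        ∑ p ∈ IP (A + i ^ 2) (B + i ^ 2), wt R1 R (p + j ^ 2 - i ^ 2) -
      ∑ i ∈ Icc 1 (2 * h), ∑ j ∈ Icc 1 (2 * h), sg h i * sg h j *
        ∑ p ∈ IP A B, wt R1 R (p + j ^ 2 - i ^ 2)| ≤ 32 * (h : ℝ) ^ 4 * (T * (1 + Real.log R)) := by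
    rw [← sum_sub_distrib]
    refine (abs_sum_le_sum_abs _ _).trans ?_
    have h3 : ∀ i ∈ Icc 1 (2 * h), |∑ j ∈ Icc 1 (2 * h), sg h i * sg h j *
        ∑ p ∈ IP (A + i ^ 2) (B + i ^ 2), wt R1 R (p + j ^ 2 - i ^ 2) -
        ∑ j ∈ Icc 1 (2 * h), sg h i * sg h j *
        ∑ p ∈ IP A B, wt R1 R (p + j ^ 2 - i ^ 2)| ≤ 2 * h * (8 * (h : ℝ) ^ 2 * (T * (1 + Real.log R))) := by
      intro i hi
      rw [mem_Icc] at hi
      rw [← sum_sub_distrib]
      refine (abs_sum_le_sum_abs _ _).trans ?_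
      have hi2 : i ^ 2 ≤ 4 * h ^ 2 := by
        calc i ^ 2 ≤ (2 * h) ^ 2 := Nat.pow_le_pow_left hi.2 2
          _ = 4 * h ^ 2 := by ring
      have h4 : ∀ j ∈ Icc 1 (2 * h), |sg h i * sg h j *
          ∑ p ∈ IP (A + i ^ 2) (B + i ^ 2), wt R1 R (p + j ^ 2 - i ^ 2) -
          sg h i * sg h j * ∑ p ∈ IP A B, wt R1 R (p + j ^ 2 - i ^ 2)| ≤
          8 * (h : ℝ) ^ 2 * (T * (1 + Real.log R)) := by
        intro j hj
        rw [mem_Icc] at hj
        have hj2 : j ^ 2 ≤ 4 * h ^ 2 := by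
          calc j ^ 2 ≤ (2 * h) ^ 2 := Nat.pow_le_pow_left hj.2 2
            _ = 4 * h ^ 2 := by ring
        rw [← mul_sub, abs_mul, abs_mul]
        have h5 := IP_shift A B (i ^ 2) (fun p => wt R1 R (p + j ^ 2 - i ^ 2)) (T * (1 + Real.log R)) hAB
          (by
            intro p hp hp2
            have h6 : 0 < p + j ^ 2 - i ^ 2 := by omega
            have h7 : p + j ^ 2 - i ^ 2 ≤ 2 * N := by omega
            exact (wt_le R1 R _ h6).trans (mul_le_mul_of_nonneg_right (hT _ h6 h7) hL))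
        have h6 : 2 * ((i ^ 2 : ℕ) : ℝ) * (T * (1 + Real.log R)) ≤ 8 * (h : ℝ) ^ 2 * (T * (1 + Real.log R)) := by
          have h7 : ((i ^ 2 : ℕ) : ℝ) ≤ 4 * (h : ℝ) ^ 2 := by exact_mod_cast hi2
          have h8 : 0 ≤ T * (1 + Real.log R) := by positivity
          apply mul_le_mul_of_nonneg_right _ h8
          linarith
        calc |sg h i| * |sg h j| * |∑ p ∈ IP (A + i ^ 2) (B + i ^ 2), wt R1 R (p + j ^ 2 - i ^ 2) -
              ∑ p ∈ IP A B, wt R1 R (p + j ^ 2 - i ^ 2)| ≤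
              1 * 1 * (8 * (h : ℝ) ^ 2 * (T * (1 + Real.log R))) := by
              apply mul_le_mul _ (h5.trans h6) (abs_nonneg _) (by norm_num)
              exact mul_le_mul (sg_abs h i) (sg_abs h j) (abs_nonneg _) (by norm_num)
          _ = _ := by ring
      refine (sum_le_card_nsmul _ _ _ h4).trans (le_of_eq ?_)
      rw [nsmul_eq_mul, Nat.card_Icc, Nat.add_sub_cancel]
      push_cast
      ring
    refine (sum_le_card_nsmul _ _ _ h3).trans (le_of_eq ?_)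
    rw [nsmul_eq_mul, Nat.card_Icc, Nat.add_sub_cancel]
    push_cast
    ring
  have h1' := abs_le.1 h1
  have h2' := abs_le.1 h2
  rw [abs_le]
  constructor <;> linarith

theorem core (N R1 R h F0 A B : ℕ) (T M2 : ℝ) (H : Hyp N R1 R 1 F0 T M2) (hh : 4 * h ≤ R)
    (hRA : R ≤ A) (hAB : A ≤ B) (hBN : B ≤ N) (hA : 8 * h ^ 2 ≤ A) (hN : B + 8 * h ^ 2 ≤ 2 * N)
    (hR1 : 0 < R1)
    (hT : ∀ n : ℕ, 0 < n → n ≤ 2 * N → (n.divisors.card : ℝ) ≤ T)
    (herr : 80 * h * Om N R1 R (4 * h) F0 T M2 + 32 * (h : ℝ) ^ 4 * (T * (1 + Real.log R)) ≤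
      h * (LL R1 R * (IP A B).card)) :
    (h * (LL R1 R * (IP A B).card)) ^ 2 ≤
      (∑ n ∈ Ioc A B, fpS h n ^ 2) *
        (6 * (B + (R : ℝ) ^ 2) * (2 * h * LL R1 R + 4 * (h : ℝ) ^ 2 * (T / R1))) := by
  have hT0 : 0 ≤ T := by linarith [H.hT1]
  have hLL : 0 ≤ LL R1 R := by
    unfold LL
    positivity
  have h1 := abs_le.1 (cross N R1 R h F0 A B T M2 H hh hRA hAB hBN hA hN hT)
  have h2 : h * (LL R1 R * (IP A B).card) ≤
      ∑ n ∈ Ioc A B, fpS h n * TG R1 R (Icc 1 (2 * h)) (sg h) (fun j => j ^ 2) n := by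
    linarith [h1.1]
  have h3 : 0 ≤ h * (LL R1 R * (IP A B).card) := by positivity
  have h4 := energy_sq R1 R A B (2 * h) (sg h) (sg_abs h) hR1 T hT0 (by
    intro n hn hn2
    apply hT n hn
    refine hn2.trans ?_
    calc (2 * h) ^ 2 = 4 * h ^ 2 := by ring
      _ ≤ 2 * N := by omega)
  calc (h * (LL R1 R * (IP A B).card)) ^ 2 ≤
        (∑ n ∈ Ioc A B, fpS h n * TG R1 R (Icc 1 (2 * h)) (sg h) (fun j => j ^ 2) n) ^ 2 :=
        pow_le_pow_left₀ h3 h2 2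
    _ ≤ (∑ n ∈ Ioc A B, fpS h n ^ 2) *
        ∑ n ∈ Ioc A B, TG R1 R (Icc 1 (2 * h)) (sg h) (fun j => j ^ 2) n ^ 2 :=
        sum_mul_sq_le_sq_mul_sq _ _ _
    _ ≤ (∑ n ∈ Ioc A B, fpS h n ^ 2) * (6 * (B + (R : ℝ) ^ 2) *
        (((2 * h : ℕ) : ℝ) * LL R1 R + (((2 * h : ℕ) : ℝ)) ^ 2 * (T / R1))) :=
        mul_le_mul_of_nonneg_left h4 (sum_nonneg fun n _ => by positivity)
    _ = _ := by
        push_cast
        ring

end Pool.Agent.H52.SQ
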