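import Mathlib
import Pool.Agent.H52.SQ.Q3

/-!
Primes `n² + a`: windows, the energy and the correlation.
-/

set_option autoImplicit false

open Finset

namespace Pool.Agent.H52.SQ

lemma KG_sq (J : Finset ℕ) (σ : ℕ → ℝ) (t : ℕ → ℕ) (r : ℕ) (hr : 0 < r) :
    ∑ b ∈ range r, ‖KG J σ t r b‖ ^ 2 =
      ∑ i ∈ J, ∑ j ∈ J, (σ i * σ j) * if t i % r = t j % r then (r : ℝ) else 0 := by
  have key : ((∑ b ∈ range r, ‖KG J σ t r b‖ ^ 2 : ℝ) : ℂ) =
      ∑ i ∈ J, ∑ j ∈ J, ((σ i * σ j : ℝ) : ℂ) * if t i % r = t j % r then (r : ℂ) else 0 := by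
    rw [Complex.ofReal_sum]
    have h2 : ∀ b ∈ range r, ((‖KG J σ t r b‖ ^ 2 : ℝ) : ℂ) =
        ∑ i ∈ J, ∑ j ∈ J, ((σ i * σ j : ℝ) : ℂ) * ee (((t i : ℤ) - (t j : ℤ) : ℤ) * b / r) := by
      intro b _
      rw [norm_sq_eq]
      unfold KG
      rw [map_sum, sum_mul_sum]
      apply sum_congr rfl
      intro i _
      apply sum_congr rfl
      intro j _
      rw [map_mul, Complex.conj_ofReal, ls_conj_ee]
      have h3 : ee ((((t i : ℤ) - (t j : ℤ) : ℤ) : ℝ) * b / r) =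
          ee ((t i : ℝ) * b / r) * ee (-((t j : ℝ) * b / r)) := by
        rw [← ls_ee_add]
        congr 1
        push_cast
        ring
      rw [h3]
      push_cast
      ring
    rw [sum_congr rfl h2, sum_comm]
    apply sum_congr rfl
    intro i _
    rw [sum_comm]
    apply sum_congr rfl
    intro j _
    rw [← mul_sum, orth r hr]
    congr 1
    have h3 : ((r : ℤ) ∣ ((t i : ℤ) - (t j : ℤ))) ↔ t i % r = t j % r := by
      rw [← Int.modEq_iff_dvd, Int.natCast_modEq_iff]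
      constructor
      · intro h; exact h.symm
      · intro h; exact h.symm
    simp only [h3]
  have h2 : ((∑ i ∈ J, ∑ j ∈ J, (σ i * σ j) * (if t i % r = t j % r then (r : ℝ) else 0) : ℝ) : ℂ) =
      ∑ i ∈ J, ∑ j ∈ J, ((σ i * σ j : ℝ) : ℂ) * if t i % r = t j % r then (r : ℂ) else 0 := by
    rw [Complex.ofReal_sum]
    apply sum_congr rfl
    intro i _
    rw [Complex.ofReal_sum]
    apply sum_congr rfl
    intro j _
    rw [Complex.ofReal_mul]
    congr 1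
    split_ifs
    · simp
    · simp
  rw [← h2] at key
  exact_mod_cast key

/-- the energy for the squares, with arbitrary weights -/
theorem energy_w (R1 R A B M : ℕ) (σ : ℕ → ℝ) (hR1 : 0 < R1) (T : ℝ)
    (hT0 : 0 ≤ T) (hT : ∀ n, 0 < n → n ≤ M ^ 2 → (n.divisors.card : ℝ) ≤ T) :
    ∑ n ∈ Ioc A B, TG R1 R (Icc 1 M) σ (fun j => j ^ 2) n ^ 2 ≤
      6 * (B + (R : ℝ) ^ 2) * ((∑ i ∈ Icc 1 M, σ i ^ 2) * (LL R1 R + M * (T / R1))) := by
  have hR1R : (0 : ℝ) < R1 := by exact_mod_cast hR1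
  have hTR : 0 ≤ T / R1 := by positivity
  apply energyG
  have h1 : ∀ r ∈ Ioc R1 R, ∑ b ∈ red r, (|mu r| / r * ‖KG (Icc 1 M) σ (fun j => j ^ 2) r b‖) ^ 2 ≤
      ∑ i ∈ Icc 1 M, ∑ j ∈ Icc 1 M, (σ i ^ 2 + σ j ^ 2) / 2 *
        ((mu r) ^ 2 * (if i ^ 2 % r = j ^ 2 % r then 1 / (r : ℝ) else 0)) := by
    intro r hr
    rw [mem_Ioc] at hr
    have hr0 : (0 : ℝ) < r := by exact_mod_cast (by omega : 0 < r)
    have h2 : ∑ b ∈ red r, (|mu r| / r * ‖KG (Icc 1 M) σ (fun j => j ^ 2) r b‖) ^ 2 =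
        ((mu r) ^ 2 / (r : ℝ) ^ 2) * ∑ b ∈ red r, ‖KG (Icc 1 M) σ (fun j => j ^ 2) r b‖ ^ 2 := by
      rw [mul_sum]
      apply sum_congr rfl
      intro b _
      rw [mul_pow, div_pow, sq_abs]
    rw [h2]
    have h3 : ∑ b ∈ red r, ‖KG (Icc 1 M) σ (fun j => j ^ 2) r b‖ ^ 2 ≤
        ∑ b ∈ range r, ‖KG (Icc 1 M) σ (fun j => j ^ 2) r b‖ ^ 2 := by
      apply sum_le_sum_of_subset_of_nonneg
      · unfold red
        exact filter_subset _ _
      · intro b _ _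
        positivity
    refine (mul_le_mul_of_nonneg_left h3 (by positivity)).trans ?_
    rw [KG_sq (Icc 1 M) σ (fun j => j ^ 2) r (by omega), mul_sum]
    apply sum_le_sum
    intro i _
    rw [mul_sum]
    apply sum_le_sum
    intro j _
    have h4 : σ i * σ j ≤ (σ i ^ 2 + σ j ^ 2) / 2 := by nlinarith [sq_nonneg (σ i - σ j)]
    show (mu r) ^ 2 / (r : ℝ) ^ 2 * (σ i * σ j * if i ^ 2 % r = j ^ 2 % r then (r : ℝ) else 0) ≤ _
    split_ifs
    · calc (mu r) ^ 2 / (r : ℝ) ^ 2 * (σ i * σ j * r) = (σ i * σ j) * ((mu r) ^ 2 * (1 / r)) := by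
            field_simp
        _ ≤ _ := mul_le_mul_of_nonneg_right h4 (by positivity)
    · simp
  refine (sum_le_sum h1).trans ?_
  rw [sum_comm]
  have h2 : ∀ i ∈ Icc 1 M, ∑ r ∈ Ioc R1 R, ∑ j ∈ Icc 1 M, (σ i ^ 2 + σ j ^ 2) / 2 *
      ((mu r) ^ 2 * (if i ^ 2 % r = j ^ 2 % r then 1 / (r : ℝ) else 0)) ≤
      σ i ^ 2 * LL R1 R + ∑ j ∈ Icc 1 M, (σ i ^ 2 + σ j ^ 2) / 2 * (T / R1) := by
    intro i hi
    have hi' := mem_Icc.1 hi
    rw [sum_comm, ← add_sum_erase _ _ hi, ← add_sum_erase (Icc 1 M) (fun j => (σ i ^ 2 + σ j ^ 2) / 2 * (T / R1)) hi]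
    have hd : ∑ r ∈ Ioc R1 R, (σ i ^ 2 + σ i ^ 2) / 2 *
        ((mu r) ^ 2 * (if i ^ 2 % r = i ^ 2 % r then 1 / (r : ℝ) else 0)) = σ i ^ 2 * LL R1 R := by
      unfold LL
      rw [mul_sum]
      apply sum_congr rfl
      intro r _
      rw [if_pos rfl]
      ring
    have he : ∑ j ∈ (Icc 1 M).erase i, ∑ r ∈ Ioc R1 R, (σ i ^ 2 + σ j ^ 2) / 2 *
        ((mu r) ^ 2 * (if i ^ 2 % r = j ^ 2 % r then 1 / (r : ℝ) else 0)) ≤
        ∑ j ∈ (Icc 1 M).erase i, (σ i ^ 2 + σ j ^ 2) / 2 * (T / R1) := by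
      apply sum_le_sum
      intro j hj
      rw [mem_erase, mem_Icc] at hj
      obtain ⟨hji, hj1, hj2⟩ := hj
      rw [← mul_sum]
      apply mul_le_mul_of_nonneg_left _ (by positivity)
      obtain ⟨n, hn0, hnM, hn⟩ : ∃ n : ℕ, 0 < n ∧ n ≤ M ^ 2 ∧ ∀ r, i ^ 2 % r = j ^ 2 % r → r ∣ n := by
        rcases lt_or_gt_of_ne hji with h | h
        · have e1 : j ^ 2 < i ^ 2 := Nat.pow_lt_pow_left h (by norm_num)
          have e2 : i ^ 2 ≤ M ^ 2 := Nat.pow_le_pow_left hi'.2 2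
          refine ⟨i ^ 2 - j ^ 2, by omega, by omega, fun r hr => ?_⟩
          exact (Nat.modEq_iff_dvd' e1.le).1 hr.symm
        · have e1 : i ^ 2 < j ^ 2 := Nat.pow_lt_pow_left h (by norm_num)
          have e2 : j ^ 2 ≤ M ^ 2 := Nat.pow_le_pow_left hj2 2
          refine ⟨j ^ 2 - i ^ 2, by omega, by omega, fun r hr => ?_⟩
          exact (Nat.modEq_iff_dvd' e1.le).1 hr
      refine le_trans (sum_le_sum fun r _ => ?_) (div_tail R1 R n hn0 hR1 T (hT n hn0 hnM))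
      have e3 : (mu r) ^ 2 ≤ 1 := by
        have := abs_mu_le r
        rw [← sq_abs]
        exact pow_le_one₀ (abs_nonneg _) this
      by_cases hc : i ^ 2 % r = j ^ 2 % r
      · rw [if_pos hc, if_pos (hn r hc)]
        exact mul_le_of_le_one_left (by positivity) e3
      · rw [if_neg hc, mul_zero]
        split_ifs <;> positivity
    have hpos : 0 ≤ (σ i ^ 2 + σ i ^ 2) / 2 * (T / R1) := by positivity
    linarith
  refine (sum_le_sum h2).trans (le_of_eq ?_)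
  rw [sum_add_distrib, ← sum_mul]
  have h3 : ∑ i ∈ Icc 1 M, ∑ j ∈ Icc 1 M, (σ i ^ 2 + σ j ^ 2) / 2 * (T / R1) =
      (∑ i ∈ Icc 1 M, σ i ^ 2) * (M * (T / R1)) := by
    have e1 : ∀ i ∈ Icc 1 M, ∑ j ∈ Icc 1 M, (σ i ^ 2 + σ j ^ 2) / 2 * (T / R1) =
        (M * σ i ^ 2 + ∑ j ∈ Icc 1 M, σ j ^ 2) / 2 * (T / R1) := by
      intro i _
      rw [← sum_mul, ← sum_div, sum_add_distrib, sum_const, nsmul_eq_mul, Nat.card_Icc, Nat.add_sub_cancel]
    rw [sum_congr rfl e1, ← sum_mul, ← sum_div, sum_add_distrib, ← mul_sum, sum_const, nsmul_eq_mul,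
      Nat.card_Icc, Nat.add_sub_cancel]
    ring
  rw [h3]
  ring

/-- pairs in two intervals by their difference -/
lemma pairI (I J : Finset ℕ) (X : ℕ) (hI : I ⊆ Icc 1 X) (hJ : J ⊆ Icc 1 X) (G : ℕ → ℕ → ℝ) :
    ∑ i ∈ I, ∑ j ∈ J, G i j = ∑ i ∈ I ∩ J, G i i +
      ∑ u ∈ Icc 1 X, ∑ i ∈ I.filter (fun i => i + u ∈ J), G i (i + u) +
      ∑ u ∈ Icc 1 X, ∑ j ∈ J.filter (fun j => j + u ∈ I), G (j + u) j := by
  have hup : ∀ (I J : Finset ℕ), I ⊆ Icc 1 X → J ⊆ Icc 1 X → ∀ G : ℕ → ℕ → ℝ,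
      ∑ i ∈ I, ∑ j ∈ J.filter (fun j => i < j), G i j =
      ∑ u ∈ Icc 1 X, ∑ i ∈ I.filter (fun i => i + u ∈ J), G i (i + u) := by
    intro I J hI hJ G
    have h1 : ∀ i ∈ I, ∑ j ∈ J.filter (fun j => i < j), G i j =
        ∑ u ∈ (Icc 1 X).filter (fun u => i + u ∈ J), G i (i + u) := by
      intro i _
      apply sum_bij (fun j _ => j - i)
      · intro j hj
        rw [mem_filter] at hj
        have := mem_Icc.1 (hJ hj.1)
        rw [mem_filter, mem_Icc]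
        have h2 : i + (j - i) = j := by omega
        rw [h2]
        exact ⟨by omega, hj.1⟩
      · intro a ha b hb hab
        rw [mem_filter] at ha hb
        have hab' : a - i = b - i := hab
        omega
      · intro u hu
        rw [mem_filter, mem_Icc] at hu
        refine ⟨i + u, ?_, ?_⟩
        · rw [mem_filter]
          exact ⟨hu.2, by omega⟩
        · omega
      · intro j hj
        rw [mem_filter] at hj
        congr 1
        omega
    rw [sum_congr rfl h1]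
    apply sum_comm'
    intro i u
    rw [mem_filter, mem_filter]
    tauto
  have hsplit : ∀ i ∈ I, ∑ j ∈ J, G i j = (if i ∈ J then G i i else 0) +
      ∑ j ∈ J.filter (fun j => i < j), G i j + ∑ j ∈ J.filter (fun j => j < i), G i j := by
    intro i _
    rw [← sum_filter_add_sum_filter_not J (fun j => i = j), ← sum_filter_add_sum_filter_not
      (J.filter (fun j => ¬ i = j)) (fun j => i < j), filter_filter, filter_filter, ← add_assoc]
    congr 1
    · congr 1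
      · rw [filter_eq]
        split_ifs
        · rw [sum_singleton]
        · rw [sum_empty]
      · apply sum_congr _ (fun _ _ => rfl)
        ext j
        rw [mem_filter, mem_filter]
        constructor
        · rintro ⟨h1, h2, h3⟩
          exact ⟨h1, h3⟩
        · rintro ⟨h1, h2⟩
          exact ⟨h1, by omega, h2⟩
    · apply sum_congr _ (fun _ _ => rfl)
      ext j
      rw [mem_filter, mem_filter]
      constructor
      · rintro ⟨h1, h2, h3⟩
        exact ⟨h1, by omega⟩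
      · rintro ⟨h1, h2⟩
        exact ⟨h1, by omega, by omega⟩
  rw [sum_congr rfl hsplit, sum_add_distrib, sum_add_distrib, hup I J hI hJ G,
    ← hup J I hJ hI (fun i j => G j i)]
  congr 1
  · congr 1
    rw [← sum_filter]
    apply sum_congr _ (fun _ _ => rfl)
    ext i
    rw [mem_filter, mem_inter]
  · apply sum_comm'
    intro i j
    rw [mem_filter, mem_filter]
    tauto

/-- an interval of the variable `i` with arbitrary end points -/
lemma offJ (N R1 R X a b F0 u c1 c2 : ℕ) (s : ℤ) (hs : s = 1 ∨ s = -1) (T M2 : ℝ) (H : Hyp N R1 R 1 F0 T M2)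
    (hu : 0 < u) (hu2 : 2 * u ≤ R) (nn : ℕ → ℕ → ℕ)
    (hnn : ∀ p ∈ IP a b, ∀ m ≤ u * (2 * X), (nn p m : ℤ) = p - s * m) (hRa : R ≤ a) (hbN : b ≤ N)
    (hc : c1 ≤ c2) (hc2 : c2 + u ≤ X) :
    |∑ p ∈ IP a b, ∑ i ∈ Ioc c1 c2, wt R1 R (nn p ((2 * i + u) * u))| ≤ 8 * Om N R1 R (2 * X) F0 T M2 := by
  have h1 : ∑ p ∈ IP a b, ∑ i ∈ Ioc c1 c2, wt R1 R (nn p ((2 * i + u) * u)) =
      ∑ p ∈ IP a b, ∑ i ∈ Icc 1 c2, wt R1 R (nn p ((2 * i + u) * u)) -
      ∑ p ∈ IP a b, ∑ i ∈ Icc 1 c1, wt R1 R (nn p ((2 * i + u) * u)) := by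
    rw [← sum_sub_distrib]
    apply sum_congr rfl
    intro p _
    rw [eq_sub_iff_add_eq, add_comm, ← sum_union]
    · apply sum_congr _ (fun _ _ => rfl)
      ext i
      rw [mem_union, mem_Icc, mem_Ioc, mem_Icc]
      omega
    · rw [disjoint_left]
      intro i hi hi2
      rw [mem_Icc] at hi
      rw [mem_Ioc] at hi2
      omega
  have a1 := offI N R1 R (2 * X) a b F0 u c2 s hs T M2 H hu hu2 nn hnn hRa hbN (by omega)
  have a2 := offI N R1 R (2 * X) a b F0 u c1 s hs T M2 H hu hu2 nn hnn hRa hbN (by omega)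
  rw [h1]
  calc _ ≤ _ := abs_sub _ _
    _ ≤ 4 * Om N R1 R (2 * X) F0 T M2 + 4 * Om N R1 R (2 * X) F0 T M2 := add_le_add a1 a2
    _ = _ := by ring

/-- pairs with a given difference in two windows -/
lemma offW (N R1 R X a b F0 u h x y : ℕ) (s : ℤ) (hs : s = 1 ∨ s = -1) (T M2 : ℝ)
    (H : Hyp N R1 R 1 F0 T M2)
    (hu : 0 < u) (hu2 : 2 * u ≤ R) (nn : ℕ → ℕ → ℕ)
    (hnn : ∀ p ∈ IP a b, ∀ m ≤ u * (2 * X), (nn p m : ℤ) = p - s * m) (hRa : R ≤ a) (hbN : b ≤ N)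
    (hy : y + h ≤ X) :
    |∑ p ∈ IP a b, ∑ i ∈ (Ioc x (x + h)).filter (fun i => i + u ∈ Ioc y (y + h)),
      wt R1 R (nn p ((2 * i + u) * u))| ≤
      if u ∈ Ioo (y - (x + h)) (y + h - x) then 8 * Om N R1 R (2 * X) F0 T M2 else 0 := by
  have hT0 : 0 ≤ T := by linarith [H.hT1]
  have hOm := Om_nonneg N R1 R (2 * X) F0 T M2 hT0 H.hM20
  by_cases hne : max x (y - u) < min (x + h) (y + h - u)
  · have h1 : (Ioc x (x + h)).filter (fun i => i + u ∈ Ioc y (y + h)) =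
        Ioc (max x (y - u)) (min (x + h) (y + h - u)) := by
      ext i
      rw [mem_filter, mem_Ioc, mem_Ioc, mem_Ioc]
      omega
    rw [h1, if_pos (by
      rw [mem_Ioo]
      omega)]
    exact offJ N R1 R X a b F0 u _ _ s hs T M2 H hu hu2 nn hnn hRa hbN hne.le (by omega)
  · have h1 : (Ioc x (x + h)).filter (fun i => i + u ∈ Ioc y (y + h)) = ∅ := by
      ext i
      rw [mem_filter, mem_Ioc, mem_Ioc]
      simp only [notMem_empty, iff_false]
      omega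
    rw [h1]
    simp only [sum_empty, sum_const_zero, abs_zero]
    split_ifs
    · positivity
    · exact le_rfl

lemma count_u (X h x y : ℕ) (W : ℝ) (hW : 0 ≤ W) :
    ∑ u ∈ Icc 1 X, (if u ∈ Ioo (y - (x + h)) (y + h - x) then W else 0) ≤ 2 * h * W := by
  rw [← sum_filter, sum_const, nsmul_eq_mul]
  apply mul_le_mul_of_nonneg_right _ hW
  have h1 : (Icc 1 X).filter (fun u => u ∈ Ioo (y - (x + h)) (y + h - x)) ⊆ Ioo (y - (x + h)) (y + h - x) := by
    intro u hu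
    rw [mem_filter] at hu
    exact hu.2
  have h2 := card_le_card h1
  rw [Nat.card_Ioo] at h2
  have h3 : ((Icc 1 X).filter (fun u => u ∈ Ioo (y - (x + h)) (y + h - x))).card ≤ 2 * h := by omega
  exact_mod_cast h3

/-- the correlation over two windows -/
theorem corrW (N R1 R X a b F0 h x y : ℕ) (T M2 : ℝ) (H : Hyp N R1 R 1 F0 T M2) (hX : 2 * X ≤ R)
    (hRa : R ≤ a) (hbN : b ≤ N) (ha : 2 * X ^ 2 ≤ a) (hx : x + h ≤ X) (hy : y + h ≤ X) :
    |∑ i ∈ Ioc x (x + h), ∑ j ∈ Ioc y (y + h), ∑ p ∈ IP a b, wt R1 R (p + j ^ 2 - i ^ 2) -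
      ((Ioc x (x + h) ∩ Ioc y (y + h)).card : ℝ) * (LL R1 R * (IP a b).card)| ≤
      32 * h * Om N R1 R (2 * X) F0 T M2 := by
  have hT0 : 0 ≤ T := by linarith [H.hT1]
  have hOm := Om_nonneg N R1 R (2 * X) F0 T M2 hT0 H.hM20
  rw [pairI (Ioc x (x + h)) (Ioc y (y + h)) X
    (fun i hi => by
      rw [mem_Ioc] at hi
      rw [mem_Icc]
      omega)
    (fun i hi => by
      rw [mem_Ioc] at hi
      rw [mem_Icc]
      omega)
    (fun i j => ∑ p ∈ IP a b, wt R1 R (p + j ^ 2 - i ^ 2))]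
  have h1 : ∑ i ∈ Ioc x (x + h) ∩ Ioc y (y + h), ∑ p ∈ IP a b, wt R1 R (p + i ^ 2 - i ^ 2) =
      ((Ioc x (x + h) ∩ Ioc y (y + h)).card : ℝ) * (LL R1 R * (IP a b).card) := by
    have h2 : ∀ i ∈ Ioc x (x + h) ∩ Ioc y (y + h), ∑ p ∈ IP a b, wt R1 R (p + i ^ 2 - i ^ 2) =
        LL R1 R * (IP a b).card := by
      intro i _
      have h3 : ∀ p ∈ IP a b, wt R1 R (p + i ^ 2 - i ^ 2) = LL R1 R := by
        intro p hp
        rw [mem_IP] at hp
        rw [Nat.add_sub_cancel]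
        exact wt_prime R1 R p hp.1 (by omega)
      rw [sum_congr rfl h3, sum_const, nsmul_eq_mul, mul_comm]
    rw [sum_congr rfl h2, sum_const, nsmul_eq_mul]
  have hb1 : ∀ u ∈ Icc 1 X, |∑ i ∈ (Ioc x (x + h)).filter (fun i => i + u ∈ Ioc y (y + h)),
      ∑ p ∈ IP a b, wt R1 R (p + (i + u) ^ 2 - i ^ 2)| ≤
      if u ∈ Ioo (y - (x + h)) (y + h - x) then 8 * Om N R1 R (2 * X) F0 T M2 else 0 := by
    intro u hu
    rw [mem_Icc] at hu
    have e1 : ∑ i ∈ (Ioc x (x + h)).filter (fun i => i + u ∈ Ioc y (y + h)),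
        ∑ p ∈ IP a b, wt R1 R (p + (i + u) ^ 2 - i ^ 2) =
        ∑ p ∈ IP a b, ∑ i ∈ (Ioc x (x + h)).filter (fun i => i + u ∈ Ioc y (y + h)),
          wt R1 R ((fun p m => p + m) p ((2 * i + u) * u)) := by
      rw [sum_comm]
      apply sum_congr rfl
      intro p _
      apply sum_congr rfl
      intro i _
      congr 1
      have : (i + u) ^ 2 = i ^ 2 + (2 * i + u) * u := by ring
      rw [this]
      show p + (i ^ 2 + (2 * i + u) * u) - i ^ 2 = p + (2 * i + u) * u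
      omega
    rw [e1]
    exact offW N R1 R X a b F0 u h x y (-1) (Or.inr rfl) T M2 H (by omega) (by omega)
      (fun p m => p + m) (by
        intro p _ m _
        push_cast
        ring) hRa hbN hy
  have hb2 : ∀ u ∈ Icc 1 X, |∑ j ∈ (Ioc y (y + h)).filter (fun j => j + u ∈ Ioc x (x + h)),
      ∑ p ∈ IP a b, wt R1 R (p + j ^ 2 - (j + u) ^ 2)| ≤
      if u ∈ Ioo (x - (y + h)) (x + h - y) then 8 * Om N R1 R (2 * X) F0 T M2 else 0 := by
    intro u hu
    rw [mem_Icc] at hu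
    have e1 : ∑ j ∈ (Ioc y (y + h)).filter (fun j => j + u ∈ Ioc x (x + h)),
        ∑ p ∈ IP a b, wt R1 R (p + j ^ 2 - (j + u) ^ 2) =
        ∑ p ∈ IP a b, ∑ j ∈ (Ioc y (y + h)).filter (fun j => j + u ∈ Ioc x (x + h)),
          wt R1 R ((fun p m => p - m) p ((2 * j + u) * u)) := by
      rw [sum_comm]
      apply sum_congr rfl
      intro p _
      apply sum_congr rfl
      intro j _
      congr 1
      have : (j + u) ^ 2 = j ^ 2 + (2 * j + u) * u := by ring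
      rw [this]
      show p + j ^ 2 - (j ^ 2 + (2 * j + u) * u) = p - (2 * j + u) * u
      omega
    rw [e1]
    exact offW N R1 R X a b F0 u h y x 1 (Or.inl rfl) T M2 H (by omega) (by omega)
      (fun p m => p - m) (by
        intro p hp m hm
        rw [mem_IP] at hp
        have h4 : u * (2 * X) ≤ 2 * X ^ 2 := by
          calc u * (2 * X) ≤ X * (2 * X) := Nat.mul_le_mul_right _ hu.2
            _ = 2 * X ^ 2 := by ring
        have h5 : m ≤ p := by omega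
        push_cast [Nat.cast_sub h5]
        ring) hRa hbN hx
  have hc1 := (abs_sum_le_sum_abs _ _).trans ((sum_le_sum hb1).trans
    (count_u X h x y (8 * Om N R1 R (2 * X) F0 T M2) (by positivity)))
  have hc2 := (abs_sum_le_sum_abs _ _).trans ((sum_le_sum hb2).trans
    (count_u X h y x (8 * Om N R1 R (2 * X) F0 T M2) (by positivity)))
  rw [h1]
  have hc1' := abs_le.1 hc1
  have hc2' := abs_le.1 hc2
  rw [abs_le]
  constructor <;> linarith

end Pool.Agent.H52.SQ
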