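import Mathlib
import Pool.Agent.H52.SQ.Q5

/-!
Primes `n² + a`: linear forms in the counts of disjoint windows.
-/

set_option autoImplicit false

open Finset

namespace Pool.Agent.H52.SQ

/-- the number of primes `n² + a` with `x < n ≤ x + h` -/
noncomputable def cw (x h a : ℕ) : ℝ := ∑ i ∈ Ioc x (x + h), (if (a + i ^ 2).Prime then (1 : ℝ) else 0)

/-- the step function -/
noncomputable def sw {k : ℕ} (x : Fin k → ℕ) (h : ℕ) (c : Fin k → ℝ) (i : ℕ) : ℝ :=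
  ∑ l, c l * (if i ∈ Ioc (x l) (x l + h) then 1 else 0)

lemma sw_sum {k : ℕ} (x : Fin k → ℕ) (h : ℕ) (c : Fin k → ℝ) (X : ℕ) (hX : ∀ l, x l + h ≤ X) (G : ℕ → ℝ) :
    ∑ i ∈ Icc 1 X, sw x h c i * G i = ∑ l, c l * ∑ i ∈ Ioc (x l) (x l + h), G i := by
  have h1 : ∀ l : Fin k, c l * ∑ i ∈ Ioc (x l) (x l + h), G i =
      ∑ i ∈ Icc 1 X, c l * (if i ∈ Ioc (x l) (x l + h) then 1 else 0) * G i := by
    intro l
    rw [mul_sum]
    have h2 : Ioc (x l) (x l + h) = (Icc 1 X).filter (fun i => i ∈ Ioc (x l) (x l + h)) := by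
      ext i
      have := hX l
      rw [mem_filter, mem_Icc, mem_Ioc]
      omega
    conv_lhs => rw [h2]
    rw [sum_filter]
    apply sum_congr rfl
    intro i _
    split_ifs
    · ring
    · ring
  rw [sum_congr rfl fun l _ => h1 l, sum_comm]
  apply sum_congr rfl
  intro i _
  unfold sw
  rw [sum_mul]

lemma inter_card {k : ℕ} (x : Fin k → ℕ) (h : ℕ)
    (hd : ∀ l m, l ≠ m → x l + h ≤ x m ∨ x m + h ≤ x l) (l m : Fin k) :
    ((Ioc (x l) (x l + h) ∩ Ioc (x m) (x m + h)).card : ℝ) = if l = m then (h : ℝ) else 0 := by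
  split_ifs with hlm
  · rw [hlm, inter_self, Nat.card_Ioc, Nat.add_sub_cancel_left]
  · have h1 : Ioc (x l) (x l + h) ∩ Ioc (x m) (x m + h) = ∅ := by
      ext i
      rw [mem_inter, mem_Ioc, mem_Ioc]
      simp only [notMem_empty, iff_false]
      have := hd l m hlm
      omega
    rw [h1]
    simp

lemma sw_sq {k : ℕ} (x : Fin k → ℕ) (h : ℕ) (c : Fin k → ℝ) (X : ℕ) (hX : ∀ l, x l + h ≤ X)
    (hd : ∀ l m, l ≠ m → x l + h ≤ x m ∨ x m + h ≤ x l) :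
    ∑ i ∈ Icc 1 X, sw x h c i ^ 2 = h * ∑ l, c l ^ 2 := by
  have h1 : ∑ i ∈ Icc 1 X, sw x h c i ^ 2 = ∑ i ∈ Icc 1 X, sw x h c i * sw x h c i :=
    sum_congr rfl fun i _ => by ring
  rw [h1, sw_sum x h c X hX, mul_sum]
  apply sum_congr rfl
  intro l _
  have h2 : ∑ i ∈ Ioc (x l) (x l + h), sw x h c i = h * c l := by
    unfold sw
    rw [sum_comm]
    have h3 : ∀ m : Fin k, ∑ i ∈ Ioc (x l) (x l + h), c m * (if i ∈ Ioc (x m) (x m + h) then (1 : ℝ) else 0) =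
        if l = m then h * c m else 0 := by
      intro m
      rw [← mul_sum, ← sum_filter, sum_const, nsmul_eq_mul, mul_one]
      have h4 : (Ioc (x l) (x l + h)).filter (fun i => i ∈ Ioc (x m) (x m + h)) =
          Ioc (x l) (x l + h) ∩ Ioc (x m) (x m + h) := by
        ext i
        rw [mem_filter, mem_inter]
      rw [h4, inter_card x h hd l m]
      split_ifs
      · ring
      · ring
    rw [sum_congr rfl fun m _ => h3 m, sum_ite_eq univ l, if_pos (mem_univ l)]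
  rw [h2]
  ring

lemma abs_sq {k : ℕ} (c : Fin k → ℝ) : (∑ l, |c l|) ^ 2 ≤ k * ∑ l, c l ^ 2 := by
  have h1 := sum_mul_sq_le_sq_mul_sq (univ : Finset (Fin k)) (fun _ => 1) (fun l => |c l|)
  simp only [one_mul, one_pow, sum_const, nsmul_eq_mul, mul_one, card_univ, Fintype.card_fin, sq_abs] at h1
  exact h1

theorem crossW {k : ℕ} (x : Fin k → ℕ) (c : Fin k → ℝ) (N R1 R X h F0 A B : ℕ) (T M2 : ℝ)
    (H : Hyp N R1 R 1 F0 T M2) (hX : ∀ l, x l + h ≤ X)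
    (hd : ∀ l m, l ≠ m → x l + h ≤ x m ∨ x m + h ≤ x l) (hXR : 2 * X ≤ R)
    (hRA : R ≤ A) (hAB : A ≤ B) (hBN : B ≤ N) (hA : 2 * X ^ 2 ≤ A) (hN : B + 2 * X ^ 2 ≤ 2 * N)
    (hT : ∀ n : ℕ, 0 < n → n ≤ 2 * N → (n.divisors.card : ℝ) ≤ T) :
    |∑ n ∈ Ioc A B, (∑ l, c l * cw (x l) h n) * TG R1 R (Icc 1 X) (sw x h c) (fun j => j ^ 2) n -
        (h * ∑ l, c l ^ 2) * (LL R1 R * (IP A B).card)| ≤
      (k * ∑ l, c l ^ 2) * (32 * h * Om N R1 R (2 * X) F0 T M2 +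
        2 * (h : ℝ) ^ 2 * (X : ℝ) ^ 2 * (T * (1 + Real.log R))) := by
  have hT0 : 0 ≤ T := by linarith [H.hT1]
  have hL := logR_nonneg R
  have hOm := Om_nonneg N R1 R (2 * X) F0 T M2 hT0 H.hM20
  set ER := 32 * h * Om N R1 R (2 * X) F0 T M2 + 2 * (h : ℝ) ^ 2 * (X : ℝ) ^ 2 * (T * (1 + Real.log R)) with hER
  have hER0 : 0 ≤ ER := by positivity
  set Z := LL R1 R * (IP A B).card with hZ
  have h1 : ∑ n ∈ Ioc A B, (∑ l, c l * cw (x l) h n) * TG R1 R (Icc 1 X) (sw x h c) (fun j => j ^ 2) n =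
      ∑ l, ∑ m, c l * c m * ∑ i ∈ Ioc (x l) (x l + h), ∑ j ∈ Ioc (x m) (x m + h),
        ∑ p ∈ IP (A + i ^ 2) (B + i ^ 2), wt R1 R (p + j ^ 2 - i ^ 2) := by
    have e1 : ∀ n ∈ Ioc A B, (∑ l, c l * cw (x l) h n) * TG R1 R (Icc 1 X) (sw x h c) (fun j => j ^ 2) n =
        ∑ l, ∑ m, c l * c m * ∑ i ∈ Ioc (x l) (x l + h), ∑ j ∈ Ioc (x m) (x m + h),
          (if (n + i ^ 2).Prime then (1 : ℝ) else 0) * wt R1 R (n + j ^ 2) := by
      intro n _
      unfold TG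
      rw [sw_sum x h c X hX (fun j => wt R1 R (n + j ^ 2)), sum_mul_sum]
      apply sum_congr rfl
      intro l _
      apply sum_congr rfl
      intro m _
      unfold cw
      rw [mul_mul_mul_comm, sum_mul_sum]
    rw [sum_congr rfl e1, sum_comm]
    apply sum_congr rfl
    intro l _
    rw [sum_comm]
    apply sum_congr rfl
    intro m _
    rw [← mul_sum]
    congr 1
    rw [sum_comm]
    apply sum_congr rfl
    intro i _
    rw [sum_comm]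
    apply sum_congr rfl
    intro j _
    rw [← IP_eq, ← SI.shift_primes A B (i ^ 2) (fun p => wt R1 R (p + j ^ 2 - i ^ 2))]
    apply sum_congr rfl
    intro n _
    have h3 : n + i ^ 2 + j ^ 2 - i ^ 2 = n + j ^ 2 := by omega
    rw [h3]
    split_ifs
    · ring
    · ring
  have h2 : (h * ∑ l, c l ^ 2) * Z = ∑ l, ∑ m, c l * c m *
      (((Ioc (x l) (x l + h) ∩ Ioc (x m) (x m + h)).card : ℝ) * Z) := by
    rw [mul_assoc, mul_comm (∑ l, c l ^ 2) Z, mul_sum, mul_sum]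
    apply sum_congr rfl
    intro l _
    have e1 : ∀ m : Fin k, c l * c m * (((Ioc (x l) (x l + h) ∩ Ioc (x m) (x m + h)).card : ℝ) * Z) =
        if l = m then h * (Z * (c l * c m)) else 0 := by
      intro m
      rw [inter_card x h hd l m]
      split_ifs
      · ring
      · ring
    rw [sum_congr rfl fun m _ => e1 m, sum_ite_eq univ l, if_pos (mem_univ l)]
    ring
  have h3 : ∀ l m : Fin k, |∑ i ∈ Ioc (x l) (x l + h), ∑ j ∈ Ioc (x m) (x m + h),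
        ∑ p ∈ IP (A + i ^ 2) (B + i ^ 2), wt R1 R (p + j ^ 2 - i ^ 2) -
        ((Ioc (x l) (x l + h) ∩ Ioc (x m) (x m + h)).card : ℝ) * Z| ≤ ER := by
    intro l m
    have e1 := corrW N R1 R X A B F0 h (x l) (x m) T M2 H hXR hRA hBN hA (hX l) (hX m)
    have e2 : |∑ i ∈ Ioc (x l) (x l + h), ∑ j ∈ Ioc (x m) (x m + h),
        ∑ p ∈ IP (A + i ^ 2) (B + i ^ 2), wt R1 R (p + j ^ 2 - i ^ 2) -
        ∑ i ∈ Ioc (x l) (x l + h), ∑ j ∈ Ioc (x m) (x m + h),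
        ∑ p ∈ IP A B, wt R1 R (p + j ^ 2 - i ^ 2)| ≤
        2 * (h : ℝ) ^ 2 * (X : ℝ) ^ 2 * (T * (1 + Real.log R)) := by
      rw [← sum_sub_distrib]
      refine (abs_sum_le_sum_abs _ _).trans ?_
      have e3 : ∀ i ∈ Ioc (x l) (x l + h), |∑ j ∈ Ioc (x m) (x m + h),
          ∑ p ∈ IP (A + i ^ 2) (B + i ^ 2), wt R1 R (p + j ^ 2 - i ^ 2) -
          ∑ j ∈ Ioc (x m) (x m + h), ∑ p ∈ IP A B, wt R1 R (p + j ^ 2 - i ^ 2)| ≤
          h * (2 * (X : ℝ) ^ 2 * (T * (1 + Real.log R))) := by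
        intro i hi
        rw [mem_Ioc] at hi
        have := hX l
        rw [← sum_sub_distrib]
        refine (abs_sum_le_sum_abs _ _).trans ?_
        have hi2 : i ^ 2 ≤ X ^ 2 := Nat.pow_le_pow_left (by omega) 2
        have e4 : ∀ j ∈ Ioc (x m) (x m + h), |∑ p ∈ IP (A + i ^ 2) (B + i ^ 2), wt R1 R (p + j ^ 2 - i ^ 2) -
            ∑ p ∈ IP A B, wt R1 R (p + j ^ 2 - i ^ 2)| ≤ 2 * (X : ℝ) ^ 2 * (T * (1 + Real.log R)) := by
          intro j hj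
          rw [mem_Ioc] at hj
          have := hX m
          have hj2 : j ^ 2 ≤ X ^ 2 := Nat.pow_le_pow_left (by omega) 2
          refine (IP_shift A B (i ^ 2) (fun p => wt R1 R (p + j ^ 2 - i ^ 2)) (T * (1 + Real.log R)) hAB
            (by
              intro p hp hp2
              have h6 : 0 < p + j ^ 2 - i ^ 2 := by omega
              have h7 : p + j ^ 2 - i ^ 2 ≤ 2 * N := by omega
              exact (wt_le R1 R _ h6).trans (mul_le_mul_of_nonneg_right (hT _ h6 h7) hL))).trans ?_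
          have h7 : ((i ^ 2 : ℕ) : ℝ) ≤ (X : ℝ) ^ 2 := by exact_mod_cast hi2
          gcongr
        refine (sum_le_card_nsmul _ _ _ e4).trans (le_of_eq ?_)
        rw [nsmul_eq_mul, Nat.card_Ioc, Nat.add_sub_cancel_left]
      refine (sum_le_card_nsmul _ _ _ e3).trans (le_of_eq ?_)
      rw [nsmul_eq_mul, Nat.card_Ioc, Nat.add_sub_cancel_left]
      ring
    have e1' := abs_le.1 e1
    have e2' := abs_le.1 e2
    rw [hER, abs_le]
    constructor <;> linarith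
  rw [h1, h2, ← sum_sub_distrib]
  have h4 : ∀ l ∈ (univ : Finset (Fin k)), |∑ m, c l * c m * ∑ i ∈ Ioc (x l) (x l + h), ∑ j ∈ Ioc (x m) (x m + h),
        ∑ p ∈ IP (A + i ^ 2) (B + i ^ 2), wt R1 R (p + j ^ 2 - i ^ 2) -
      ∑ m, c l * c m * (((Ioc (x l) (x l + h) ∩ Ioc (x m) (x m + h)).card : ℝ) * Z)| ≤
      ∑ m, |c l| * |c m| * ER := by
    intro l _
    rw [← sum_sub_distrib]
    refine (abs_sum_le_sum_abs _ _).trans (sum_le_sum fun m _ => ?_)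
    rw [← mul_sub, abs_mul, abs_mul]
    exact mul_le_mul_of_nonneg_left (h3 l m) (by positivity)
  refine (abs_sum_le_sum_abs _ _).trans ((sum_le_sum h4).trans ?_)
  have h5 : ∑ l, ∑ m, |c l| * |c m| * ER = (∑ l, |c l|) ^ 2 * ER := by
    rw [sq, sum_mul_sum, sum_mul]
    apply sum_congr rfl
    intro l _
    rw [sum_mul]
  rw [h5]
  exact mul_le_mul_of_nonneg_right (abs_sq c) hER0

theorem coreW {k : ℕ} (x : Fin k → ℕ) (c : Fin k → ℝ) (N R1 R X h F0 A B : ℕ) (T M2 : ℝ)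
    (H : Hyp N R1 R 1 F0 T M2) (hX : ∀ l, x l + h ≤ X)
    (hd : ∀ l m, l ≠ m → x l + h ≤ x m ∨ x m + h ≤ x l) (hXR : 2 * X ≤ R)
    (hRA : R ≤ A) (hAB : A ≤ B) (hBN : B ≤ N) (hA : 2 * X ^ 2 ≤ A) (hN : B + 2 * X ^ 2 ≤ 2 * N)
    (hR1 : 0 < R1)
    (hT : ∀ n : ℕ, 0 < n → n ≤ 2 * N → (n.divisors.card : ℝ) ≤ T)
    (herr : k * (32 * Om N R1 R (2 * X) F0 T M2 + 2 * (h : ℝ) * (X : ℝ) ^ 2 * (T * (1 + Real.log R))) ≤
      LL R1 R * (IP A B).card / 2) :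
    ((h * ∑ l, c l ^ 2) * (LL R1 R * (IP A B).card) / 2) ^ 2 ≤
      (∑ n ∈ Ioc A B, (∑ l, c l * cw (x l) h n) ^ 2) *
        (6 * (B + (R : ℝ) ^ 2) * ((h * ∑ l, c l ^ 2) * (LL R1 R + X * (T / R1)))) := by
  have hT0 : 0 ≤ T := by linarith [H.hT1]
  have hLL : 0 ≤ LL R1 R := by
    unfold LL
    positivity
  have hc0 : 0 ≤ ∑ l, c l ^ 2 := sum_nonneg fun l _ => by positivity
  have h1 := abs_le.1 (crossW x c N R1 R X h F0 A B T M2 H hX hd hXR hRA hAB hBN hA hN hT)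
  have h0 : (k * ∑ l, c l ^ 2) * (32 * h * Om N R1 R (2 * X) F0 T M2 +
        2 * (h : ℝ) ^ 2 * (X : ℝ) ^ 2 * (T * (1 + Real.log R))) ≤
      (h * ∑ l, c l ^ 2) * (LL R1 R * (IP A B).card / 2) := by
    calc _ = (h * ∑ l, c l ^ 2) * (k * (32 * Om N R1 R (2 * X) F0 T M2 +
          2 * (h : ℝ) * (X : ℝ) ^ 2 * (T * (1 + Real.log R)))) := by ring
      _ ≤ _ := mul_le_mul_of_nonneg_left herr (by positivity)
  have h2 : (h * ∑ l, c l ^ 2) * (LL R1 R * (IP A B).card) / 2 ≤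
      ∑ n ∈ Ioc A B, (∑ l, c l * cw (x l) h n) * TG R1 R (Icc 1 X) (sw x h c) (fun j => j ^ 2) n := by
    linarith [h1.1]
  have h3 : 0 ≤ (h * ∑ l, c l ^ 2) * (LL R1 R * (IP A B).card) / 2 := by positivity
  have h4 := energy_w R1 R A B X (sw x h c) hR1 T hT0 (by
    intro n hn hn2
    apply hT n hn
    omega)
  rw [sw_sq x h c X hX hd] at h4
  calc ((h * ∑ l, c l ^ 2) * (LL R1 R * (IP A B).card) / 2) ^ 2 ≤
        (∑ n ∈ Ioc A B, (∑ l, c l * cw (x l) h n) *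
          TG R1 R (Icc 1 X) (sw x h c) (fun j => j ^ 2) n) ^ 2 :=
        pow_le_pow_left₀ h3 h2 2
    _ ≤ (∑ n ∈ Ioc A B, (∑ l, c l * cw (x l) h n) ^ 2) *
        ∑ n ∈ Ioc A B, TG R1 R (Icc 1 X) (sw x h c) (fun j => j ^ 2) n ^ 2 :=
        sum_mul_sq_le_sq_mul_sq _ _ _
    _ ≤ _ := mul_le_mul_of_nonneg_left h4 (sum_nonneg fun n _ => by positivity)

end Pool.Agent.H52.SQ
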